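import Pool.Agent.H97.KB.Lower

/-!
Asymptotic form of the Chernoff bound for jet monomials of weight `m` and degree at least `q m`,
and the lower bound for the number of all monomials of weight `m`.
-/

namespace H97KB

open Finset Filter Topology

/-- weights of the jet variables: level `j` (starting from `0`) has weight `j + 1` -/
def jw (k n : ℕ) : Fin k × Fin n → ℕ := fun i => i.1.1 + 1

lemma jw_pos (k n : ℕ) (i : Fin k × Fin n) : 1 ≤ jw k n i := by unfold jw; omega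

/-- `∏_{j ≤ k} (1 - 1/(2j)) ≥ 1 / (2 √k)` -/
lemma half_prod_sq (k : ℕ) (hk : 1 ≤ k) :
    1 / (4 * (k : ℝ)) ≤ (∏ j ∈ range k, (1 - 1 / (2 * ((j : ℝ) + 1)))) ^ 2 := by
  induction k, hk using Nat.le_induction with
  | base => norm_num
  | succ k hk ih =>
    rw [prod_range_succ, mul_pow]
    have hk' : (1 : ℝ) ≤ k := by exact_mod_cast hk
    have h1 : 1 - 1 / (2 * ((k : ℝ) + 1)) = (2 * k + 1) / (2 * (k + 1)) := by field_simp; ring
    rw [h1]
    have h2 : (0 : ℝ) ≤ ((2 * k + 1) / (2 * (k + 1))) ^ 2 := by positivity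
    refine le_trans ?_ (mul_le_mul_of_nonneg_right ih h2)
    push_cast
    rw [div_pow, ← mul_div_assoc, div_mul_eq_mul_div, one_mul, div_div, div_le_div_iff₀ (by positivity) (by positivity)]
    nlinarith [mul_pos (show (0 : ℝ) < k by linarith) (show (0 : ℝ) < (k : ℝ) + 1 by linarith)]

lemma half_prod_pos (k : ℕ) : 0 < ∏ j ∈ range k, (1 - 1 / (2 * ((j : ℝ) + 1))) := by
  apply prod_pos
  intro j _
  have : 1 - 1 / (2 * ((j : ℝ) + 1)) = (2 * j + 1) / (2 * (j + 1)) := by field_simp; ring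
  rw [this]; positivity

lemma half_prod_inv (k : ℕ) (hk : 1 ≤ k) :
    (∏ j ∈ range k, (1 - 1 / (2 * ((j : ℝ) + 1))))⁻¹ ≤ 2 * √k := by
  have hk' : (0 : ℝ) < k := by exact_mod_cast hk
  have h := half_prod_sq k hk
  have hp := half_prod_pos k
  set P := ∏ j ∈ range k, (1 - 1 / (2 * ((j : ℝ) + 1))) with hP
  have h1 : (2 * √k)⁻¹ ≤ P := by
    have h2 : ((2 * √k)⁻¹) ^ 2 = 1 / (4 * (k : ℝ)) := by
      rw [inv_pow, mul_pow, Real.sq_sqrt hk'.le]; norm_num
    rw [← h2] at h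
    exact le_of_sq_le_sq h hp.le
  calc P⁻¹ ≤ ((2 * √k)⁻¹)⁻¹ := inv_anti₀ (by positivity) h1
    _ = _ := inv_inv _

lemma prod_jw (k n : ℕ) : ∏ i, (jw k n i : ℝ) = ((k.factorial : ℝ)) ^ n := by
  rw [Fintype.prod_prod_type]
  simp only [jw, prod_const, card_univ, Fintype.card_fin]
  rw [prod_pow, Fin.prod_univ_eq_prod_range (fun j => (((j + 1 : ℕ)) : ℝ)) k]
  congr 1
  rw [← Nat.cast_prod, Finset.prod_range_add_one_eq_factorial]

lemma prod_jw_half (k n : ℕ) :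
    ∏ i, ((jw k n i : ℝ) - 1 / 2)
      = (k.factorial : ℝ) ^ n * (∏ j ∈ range k, (1 - 1 / (2 * ((j : ℝ) + 1)))) ^ n := by
  rw [← mul_pow]
  rw [Fintype.prod_prod_type]
  simp only [jw, prod_const, card_univ, Fintype.card_fin]
  rw [prod_pow, Fin.prod_univ_eq_prod_range (fun j => (((j + 1 : ℕ)) : ℝ) - 1 / 2) k]
  congr 1
  rw [← Finset.prod_range_add_one_eq_factorial, Nat.cast_prod, ← prod_mul_distrib]
  apply prod_congr rfl
  intro j _
  push_cast
  field_simp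

/-- the number of jet monomials of weight `m` and degree at least `p` -/
noncomputable def jetCount (k n m p : ℕ) : ℕ :=
  Nat.card {a : Fin k × Fin n →₀ ℕ // Finsupp.weight (fun i : Fin k × Fin n => i.1.1 + 1) a = m ∧ p ≤ a.degree}

lemma weight_eq (k n : ℕ) (a : Fin k × Fin n →₀ ℕ) :
    Finsupp.weight (fun i : Fin k × Fin n => i.1.1 + 1) a = ∑ i, jw k n i * a i := by
  rw [Finsupp.weight_apply, Finsupp.sum_fintype]
  · apply sum_congr rfl
    intro i _
    simp [jw, mul_comm]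
  · simp

lemma degree_eq (k n : ℕ) (a : Fin k × Fin n →₀ ℕ) : a.degree = ∑ i, a i := by
  rw [Finsupp.degree_eq_sum]

/-- the monomials as functions -/
lemma jetCount_eq (k n m p : ℕ) : jetCount k n m p = (wtdeg (jw k n) m p).card := by
  unfold jetCount
  have e : {a : Fin k × Fin n →₀ ℕ // Finsupp.weight (fun i : Fin k × Fin n => i.1.1 + 1) a = m
      ∧ p ≤ a.degree} ≃ {a // a ∈ wtdeg (jw k n) m p} := by
    refine Equiv.subtypeEquiv Finsupp.equivFunOnFinite ?_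
    intro a
    rw [weight_eq, degree_eq]
    unfold wtdeg
    rw [mem_filter, mem_wt _ (jw_pos k n)]
    rfl
  rw [Nat.card_congr e, Nat.card_eq_fintype_card, Fintype.card_coe]

lemma jetCount_zero (k n m : ℕ) : jetCount k n m 0 = (wt (jw k n) m).card := by
  rw [jetCount_eq]
  unfold wtdeg
  rw [filter_true_of_mem]
  intro a _
  exact Nat.zero_le _

/-- lower bound for the number of all jet monomials of weight `m` -/
theorem jetCount_ge (n k M : ℕ) (hn : 1 ≤ n) (hk : 1 ≤ k) (hM : M + 1 = k * n) (m : ℕ) :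
    (m : ℝ) ^ M / (M.factorial * (k.factorial : ℝ) ^ n) ≤ (jetCount k n m 0 : ℝ) := by
  have h := wt_card (jw k n) (jw_pos k n) (⟨0, hk⟩, ⟨0, hn⟩) (by simp [jw]) m
  have hc : Fintype.card (Fin k × Fin n) - 1 = M := by
    simp only [Fintype.card_prod, Fintype.card_fin]; omega
  rw [hc, prod_jw] at h
  rwa [jetCount_zero]

/-- Chernoff bound, finite form, for the jet monomials -/
theorem jetCount_finite (n k M : ℕ) (hn : 1 ≤ n) (hk : 1 ≤ k) (hM : M + 1 = k * n) (hM1 : 1 ≤ M)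
    (q : ℝ) (m p : ℕ) (hm : 1 ≤ m) (hp : q * m ≤ p) :
    (jetCount k n m p : ℝ) ≤ Real.exp (M - q * M / 2) *
      ∏ i ∈ univ.erase ((⟨0, hk⟩, ⟨0, hn⟩) : Fin k × Fin n), (1 + m / (M * ((jw k n i : ℝ) - 1 / 2))) := by
  have hM' : (1 : ℝ) ≤ M := by exact_mod_cast hM1
  have hm' : (0 : ℝ) < m := by exact_mod_cast hm
  have h := chern (jw k n) (jw_pos k n) (⟨0, hk⟩, ⟨0, hn⟩) (by simp [jw]) m p hm M (M / 2)
    (by linarith) (by linarith)
  rw [jetCount_eq]
  refine h.trans ?_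
  have hprod : 0 ≤ ∏ i ∈ univ.erase ((⟨0, hk⟩, ⟨0, hn⟩) : Fin k × Fin n),
      (1 + (m : ℝ) / (M * ((jw k n i : ℝ) - 1 / 2))) := by
    apply prod_nonneg
    intro i _
    have : (1 : ℝ) ≤ jw k n i := by exact_mod_cast jw_pos k n i
    have : 0 ≤ (m : ℝ) / (M * ((jw k n i : ℝ) - 1 / 2)) := by
      apply div_nonneg hm'.le
      apply mul_nonneg <;> linarith
    linarith
  have e : ∀ i : Fin k × Fin n, (M : ℝ) * jw k n i - M / 2 = M * ((jw k n i : ℝ) - 1 / 2) := by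
    intro i; ring
  simp only [e]
  apply mul_le_mul_of_nonneg_right _ hprod
  apply Real.exp_le_exp.mpr
  have : q ≤ p / m := by rw [le_div_iff₀ hm']; exact hp
  have : (M : ℝ) / 2 * q ≤ M / 2 * (p / m) := mul_le_mul_of_nonneg_left this (by linarith)
  have e2 : (M : ℝ) / 2 * p / m = M / 2 * (p / m) := by ring
  rw [e2]
  linarith

/-- Chernoff bound, asymptotic form -/
theorem jetCount_asymp (n k M : ℕ) (hn : 1 ≤ n) (hk : 1 ≤ k) (hM : M + 1 = k * n) (hM1 : 1 ≤ M)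
    (q ε : ℝ) (hε : 0 < ε) :
    ∀ᶠ m : ℕ in atTop, ∀ p : ℕ, q * m ≤ p → (jetCount k n m p : ℝ) ≤
      (1 + ε) * (Real.exp (M - q * M / 2) / (M : ℝ) ^ M *
        ((2 * √k) ^ n / (2 * (k.factorial : ℝ) ^ n)) * (m : ℝ) ^ M) := by
  have hM' : (1 : ℝ) ≤ M := by exact_mod_cast hM1
  set i0 : Fin k × Fin n := (⟨0, hk⟩, ⟨0, hn⟩) with hi0
  set c : Fin k × Fin n → ℝ := fun i => M * ((jw k n i : ℝ) - 1 / 2) with hc
  have hcpos : ∀ i, 0 < c i := by
    intro i
    have : (1 : ℝ) ≤ jw k n i := by exact_mod_cast jw_pos k n i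
    simp only [hc]
    apply mul_pos <;> linarith
  have hlim : Tendsto (fun m : ℕ => ∏ i ∈ univ.erase i0, (1 + c i / m)) atTop (𝓝 1) := by
    have : Tendsto (fun m : ℕ => ∏ i ∈ univ.erase i0, (1 + c i / m)) atTop
        (𝓝 (∏ i ∈ univ.erase i0, (1 + 0))) := by
      apply tendsto_finsetProd
      intro i _
      exact tendsto_const_nhds.add (tendsto_const_div_atTop_nhds_zero_nat (c i))
    simpa using this
  have hev : ∀ᶠ m : ℕ in atTop, ∏ i ∈ univ.erase i0, (1 + c i / m) < 1 + ε :=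
    hlim.eventually_lt_const (by linarith)
  filter_upwards [hev, eventually_ge_atTop 1] with m h1 hm p hp
  have hm' : (0 : ℝ) < m := by exact_mod_cast hm
  have h := jetCount_finite n k M hn hk hM hM1 q m p hm hp
  refine h.trans ?_
  have hcard : (univ.erase i0 : Finset (Fin k × Fin n)).card = M := by
    rw [card_erase_of_mem (mem_univ i0), card_univ, Fintype.card_prod, Fintype.card_fin, Fintype.card_fin]
    omega
  have hsplit : ∏ i ∈ univ.erase i0, (1 + m / (M * ((jw k n i : ℝ) - 1 / 2)))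
      = (∏ i ∈ univ.erase i0, (m / c i)) * ∏ i ∈ univ.erase i0, (1 + c i / m) := by
    rw [← prod_mul_distrib]
    apply prod_congr rfl
    intro i _
    have h3 := hcpos i
    change 1 + (m : ℝ) / c i = m / c i * (1 + c i / m)
    field_simp
    ring
  have hP : 0 < ∏ i ∈ univ.erase i0, (c i) := prod_pos fun i _ => hcpos i
  have hprodc : ∏ i ∈ univ.erase i0, c i = (M : ℝ) ^ M *
      (2 * ((k.factorial : ℝ) ^ n * (∏ j ∈ range k, (1 - 1 / (2 * ((j : ℝ) + 1)))) ^ n)) := by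
    have e1 := mul_prod_erase univ (fun i => (jw k n i : ℝ) - 1 / 2) (mem_univ i0)
    rw [prod_jw_half] at e1
    have e0 : (jw k n i0 : ℝ) - 1 / 2 = 1 / 2 := by simp [jw, hi0]; norm_num
    rw [e0] at e1
    simp only [hc]
    rw [prod_mul_distrib, prod_const, hcard]
    congr 1
    linarith
  have hdiv : ∏ i ∈ univ.erase i0, ((m : ℝ) / c i) = (m : ℝ) ^ M / ∏ i ∈ univ.erase i0, c i := by
    rw [prod_div_distrib, prod_const, hcard]
  have hHP := half_prod_pos k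
  have hinv : (∏ i ∈ univ.erase i0, c i)⁻¹ ≤ 1 / (M : ℝ) ^ M *
      ((2 * √k) ^ n / (2 * (k.factorial : ℝ) ^ n)) := by
    rw [hprodc]
    have hk' := half_prod_inv k hk
    have h2 : ((∏ j ∈ range k, (1 - 1 / (2 * ((j : ℝ) + 1)))) ^ n)⁻¹ ≤ (2 * √k) ^ n := by
      rw [← inv_pow]
      exact pow_le_pow_left₀ (inv_nonneg.mpr hHP.le) hk' n
    have hf : (0 : ℝ) < (k.factorial : ℝ) ^ n := by positivity
    have hMM : (0 : ℝ) < (M : ℝ) ^ M := by positivity
    rw [mul_inv, mul_inv, mul_inv]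
    calc ((M : ℝ) ^ M)⁻¹ * (2⁻¹ * (((k.factorial : ℝ) ^ n)⁻¹ *
          ((∏ j ∈ range k, (1 - 1 / (2 * ((j : ℝ) + 1)))) ^ n)⁻¹))
        ≤ ((M : ℝ) ^ M)⁻¹ * (2⁻¹ * (((k.factorial : ℝ) ^ n)⁻¹ * (2 * √k) ^ n)) := by gcongr
      _ = _ := by field_simp
  rw [hsplit, hdiv]
  have hm0 : 0 ≤ (m : ℝ) ^ M := by positivity
  have step1 : (m : ℝ) ^ M / ∏ i ∈ univ.erase i0, c i ≤
      1 / (M : ℝ) ^ M * ((2 * √k) ^ n / (2 * (k.factorial : ℝ) ^ n)) * (m : ℝ) ^ M := by
    rw [div_eq_mul_inv, mul_comm]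
    exact mul_le_mul_of_nonneg_right hinv hm0
  have hge : 0 ≤ ∏ i ∈ univ.erase i0, (1 + c i / m) := by
    apply prod_nonneg
    intro i _
    have := div_pos (hcpos i) hm'
    linarith
  have hB : 0 ≤ 1 / (M : ℝ) ^ M * ((2 * √k) ^ n / (2 * (k.factorial : ℝ) ^ n)) * (m : ℝ) ^ M := by
    positivity
  calc Real.exp (M - q * M / 2) * ((m : ℝ) ^ M / (∏ i ∈ univ.erase i0, c i) *
        ∏ i ∈ univ.erase i0, (1 + c i / m))
      ≤ Real.exp (M - q * M / 2) *
        ((1 / (M : ℝ) ^ M * ((2 * √k) ^ n / (2 * (k.factorial : ℝ) ^ n)) * (m : ℝ) ^ M) * (1 + ε)) := by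
        apply mul_le_mul_of_nonneg_left _ (Real.exp_pos _).le
        exact mul_le_mul step1 h1.le hge hB
    _ = _ := by ring

end H97KB
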