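import Pool.Agent.H97.KB.Bad
import Pool.Agent.H64.KB.Err

/-!
# Lower bound of the integral over the cut (module V4 of THEOREM K')
-/

set_option autoImplicit false

namespace H97KB

open MeasureTheory Finset Matrix Polynomial
open scoped ComplexOrder
open Pool.H64.KB Pool.Agent.H57.KB

variable {n k : ℕ}

theorem wis_eq (ζ : Jet n k) : wis ζ = Wm (wv k) ζ := by
  unfold wis Wm wv
  rfl

theorem es_eq (w : Fin k → ℝ) (i : ℕ) : esy w i = es w i := rfl

/-- The determinant of `W`. -/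
noncomputable def dW (ζ : Jet n k) : ℝ := (Wm (wv k) ζ).det.re

/-- The determinant of `S^* (W + a) S + c`. -/
noncomputable def dA (a c : ℝ) (S : Matrix (Fin n) (Fin n) ℂ) (ζ : Jet n k) : ℝ :=
  (Sᴴ * (Wm (wv k) ζ + (a : ℂ) • (1 : Matrix (Fin n) (Fin n) ℂ)) * S +
    (c : ℂ) • (1 : Matrix (Fin n) (Fin n) ℂ)).det.re

theorem dW_nonneg (ζ : Jet n k) : 0 ≤ dW ζ := by
  have h1 := (Wm_posSemidef (wv k) (fun s => (wv_pos k s).le) ζ).det_nonneg
  exact (Complex.le_def.1 h1).1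

theorem dA_nonneg {a c : ℝ} (ha : 0 ≤ a) (hc : 0 ≤ c) (S : Matrix (Fin n) (Fin n) ℂ) (ζ : Jet n k) :
    0 ≤ dA a c S ζ := by
  unfold dA
  rw [Pool.H64.KB.form_eq]
  exact det_re_nonneg (M0_posSemidef ha hc S) (wv k) (fun s => (wv_pos k s).le) ζ

theorem low_of_bad {a : ℝ} (c : ℝ) (S : Matrix (Fin n) (Fin n) ℂ) {ζ : Jet n k} (h : ζ ∈ badSet n k a) :
    low a c S ζ = - dA a c S ζ := by
  rw [mem_badSet_iff] at h
  unfold low dA
  rw [if_neg h, wis_eq]

theorem low_of_good {a : ℝ} (c : ℝ) (S : Matrix (Fin n) (Fin n) ℂ) {ζ : Jet n k} (h : ζ ∉ badSet n k a) :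
    low a c S ζ = (1 / 2) ^ n * (‖S.det‖ ^ 2 * dW ζ) := by
  rw [mem_badSet_iff, not_not] at h
  unfold low dW
  rw [if_pos h, wis_eq]

section

variable {γ : Measure ℂ} [IsProbabilityMeasure γ]

/-- The law of `ζ`. -/
noncomputable abbrev law (n k : ℕ) (γ : Measure ℂ) : Measure (Jet n k) :=
  Measure.pi fun _ : Fin k => Measure.pi fun _ : Fin n => γ

theorem integrable_dW (h : StdC γ) : Integrable (fun ζ : Jet n k => dW ζ) (law n k γ) :=
  integrable_det_Wm h (wv k)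

theorem integral_dW (h : StdC γ) : ∫ ζ : Jet n k, dW ζ ∂(law n k γ) = n.factorial * es (wv k) n := by
  have := integral_det_Wm (ι := Fin n) h (wv k)
  rw [Fintype.card_fin] at this
  exact this

theorem integral_nsq_dW (h : StdC γ) :
    ∫ ζ : Jet n k, nsq ζ * dW ζ ∂(law n k γ) = n * (k + 1) * (n.factorial * es (wv k) n) := by
  have := integral_nsq_det_Wm (ι := Fin n) h (wv k)
  rw [Fintype.card_fin, Fintype.card_fin] at this
  exact this

theorem integrable_nsq_dW (h : StdC γ) (hn : 1 ≤ n) (he : 0 < es (wv k) n) :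
    Integrable (fun ζ : Jet n k => nsq ζ * dW ζ) (law n k γ) := by
  by_contra hcon
  have h1 := integral_undef hcon
  rw [integral_nsq_dW h] at h1
  have hn0 : (0 : ℝ) < n := by exact_mod_cast hn
  have : (0 : ℝ) < n * (k + 1) * (n.factorial * es (wv k) n) := by positivity
  linarith

theorem integrable_dA (h : StdC γ) (a c : ℝ) (S : Matrix (Fin n) (Fin n) ℂ) :
    Integrable (fun ζ : Jet n k => dA a c S ζ) (law n k γ) := by
  unfold dA
  simp_rw [Pool.H64.KB.form_eq]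
  exact integrable_det_re (vec_fS h S).mom (M0 a c S) (wv k)

/-- The hypothesis on the tails. -/
def TailB (n k : ℕ) (γ : Measure ℂ) (x p : ℝ) : Prop :=
  ∀ I : Finset (Fin k), I.card ≤ n → (law n k γ).real (badI n k x I) ≤ p

theorem hBI (hk : 1 ≤ k) {a p : ℝ} (ht : TailB n k γ (2 * a * k) p) :
    ∀ I : Finset (Fin k), I.card ≤ Fintype.card (Fin n) → MeasurableSet (badI n k (2 * a * k) I) ∧
      (∀ x y : Jet n k, (∀ s, s ∉ I → x s = y s) →
        (x ∈ badI n k (2 * a * k) I ↔ y ∈ badI n k (2 * a * k) I)) ∧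
      badSet n k a ⊆ badI n k (2 * a * k) I ∧ (law n k γ).real (badI n k (2 * a * k) I) ≤ p := by
  intro I hI
  rw [Fintype.card_fin] at hI
  exact ⟨(isOpen_badI _ I).measurableSet, fun x y h => badI_congr _ I x y h, badSet_subset hk a I, ht I hI⟩

theorem bad_dW (h : StdC γ) (hk : 1 ≤ k) {a p : ℝ} (ht : TailB n k γ (2 * a * k) p) :
    ∫ ζ in badSet n k a, dW ζ ∂(law n k γ) ≤ p * (n.factorial * es (wv k) n) := by
  have h1 := setIntegral_det_le (vec_one (ι := Fin n) h) (M₀ := 0) Matrix.PosSemidef.zero (wv k)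
    (fun s => (wv_pos k s).le) p (isOpen_badSet a).measurableSet (badI n k (2 * a * k)) (hBI hk ht)
  rw [← integral_det_re (vec_one (ι := Fin n) h) 0 (wv k)] at h1
  simp_rw [← Wm_eq] at h1
  have h2 := integral_dW (n := n) (k := k) h
  unfold dW at h2 ⊢
  rw [h2] at h1
  exact h1

/-- The sum in the bound of the error term. -/
noncomputable def errSum (k : ℕ) (a c : ℝ) (S : Matrix (Fin n) (Fin n) ℂ) : ℝ :=
  ∑ I : Finset (Fin k), (∏ s ∈ I, wv k s) *
    ((I.card.factorial : ℝ) * ((det (pm (M0 a c S) (Sᴴ * S))).coeff I.card).re)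

theorem bad_dA (h : StdC γ) (hk : 1 ≤ k) {a c p : ℝ} (ha : 0 ≤ a) (hc : 0 ≤ c)
    (ht : TailB n k γ (2 * a * k) p) (S : Matrix (Fin n) (Fin n) ℂ) :
    ∫ ζ in badSet n k a, dA a c S ζ ∂(law n k γ) ≤ p * errSum k a c S := by
  unfold dA
  simp_rw [Pool.H64.KB.form_eq]
  exact setIntegral_det_le (vec_fS h S) (M0_posSemidef ha hc S) (wv k)
    (fun s => (wv_pos k s).le) p (isOpen_badSet a).measurableSet (badI n k (2 * a * k)) (hBI hk ht)

theorem continuous_nsq : Continuous fun ζ : Jet n k => nsq ζ := by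
  unfold nsq
  refine continuous_finset_sum _ fun s _ => continuous_finset_sum _ fun i _ => ?_
  exact Complex.continuous_normSq.comp (by fun_prop)

/-- The pointwise bound. -/
theorem point (h : StdC γ) (hn : 1 ≤ n) (hk : 1 ≤ k) (he : 0 < es (wv k) n) {a c p R : ℝ} (ha : 0 ≤ a)
    (hc : 0 ≤ c) (hR : 0 < R) (hR4 : 4 * (n * ((k : ℝ) + 1)) ≤ R) (ht : TailB n k γ (2 * a * k) p)
    (S : Matrix (Fin n) (Fin n) ℂ) :
    (1 / 2) ^ n * (‖S.det‖ ^ 2 * ((3 / 4 - p) * (n.factorial * es (wv k) n))) - p * errSum k a c S ≤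
      ∫ ζ in {ζ : Jet n k | nsq ζ ≤ R}, low a c S ζ ∂(law n k γ) := by
  set G : Set (Jet n k) := {ζ : Jet n k | nsq ζ ≤ R} with hG
  set B : Set (Jet n k) := badSet n k a with hB
  have hBm : MeasurableSet B := (isOpen_badSet a).measurableSet
  have hGm : MeasurableSet G := (isClosed_le continuous_nsq continuous_const).measurableSet
  set c1 : ℝ := (1 / 2) ^ n * ‖S.det‖ ^ 2 with hc1
  have hc10 : 0 ≤ c1 := by positivity
  have hlow : (fun ζ => low a c S ζ) =
      fun ζ => B.indicator (fun ζ => - dA a c S ζ) ζ + Bᶜ.indicator (fun ζ => c1 * dW ζ) ζ := by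
    funext ζ
    by_cases hζ : ζ ∈ B
    · have hζ' : ζ ∉ Bᶜ := fun h => h hζ
      rw [low_of_bad c S hζ, Set.indicator_of_mem hζ, Set.indicator_of_notMem hζ', add_zero]
    · rw [low_of_good c S hζ, Set.indicator_of_notMem hζ, Set.indicator_of_mem (show ζ ∈ Bᶜ from hζ), zero_add,
        hc1]
      ring
  have hiW := integrable_dW (n := n) (k := k) h
  have hiA := integrable_dA (n := n) (k := k) h a c S
  have hlowi : Integrable (fun ζ => low a c S ζ) (law n k γ) := by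
    rw [hlow]
    exact (hiA.neg.indicator hBm).add ((hiW.const_mul c1).indicator hBm.compl)
  have e1 : ∫ ζ in G, low a c S ζ ∂(law n k γ) =
      ∫ ζ in G ∩ B, low a c S ζ ∂(law n k γ) + ∫ ζ in G \ B, low a c S ζ ∂(law n k γ) :=
    (integral_inter_add_diff hBm hlowi.integrableOn).symm
  have e2 : ∫ ζ in G ∩ B, low a c S ζ ∂(law n k γ) = - ∫ ζ in G ∩ B, dA a c S ζ ∂(law n k γ) := by
    rw [← integral_neg]
    apply setIntegral_congr_fun (hGm.inter hBm)
    intro ζ hζ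
    exact low_of_bad c S hζ.2
  have e3 : ∫ ζ in G \ B, low a c S ζ ∂(law n k γ) = c1 * ∫ ζ in G \ B, dW ζ ∂(law n k γ) := by
    rw [← integral_const_mul]
    apply setIntegral_congr_fun (hGm.diff hBm)
    intro ζ hζ
    simp only
    rw [low_of_good c S hζ.2, hc1]
    ring
  have e4 : ∫ ζ in G ∩ B, dA a c S ζ ∂(law n k γ) ≤ ∫ ζ in B, dA a c S ζ ∂(law n k γ) :=
    setIntegral_mono_set hiA.integrableOn
      (Filter.Eventually.of_forall fun ζ => dA_nonneg ha hc S ζ)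
      (Filter.Eventually.of_forall fun ζ hζ => hζ.2)
  have e5 := bad_dA (n := n) (k := k) h hk ha hc ht S
  have e6 := bad_dW (n := n) (k := k) h hk ht
  -- the part outside the cut
  have e7 : ∫ ζ in Gᶜ, dW ζ ∂(law n k γ) ≤ 1 / 4 * (n.factorial * es (wv k) n) := by
    have hi2 := integrable_nsq_dW (n := n) (k := k) h hn he
    have h1 : ∫ ζ in Gᶜ, dW ζ ∂(law n k γ) ≤ ∫ ζ in Gᶜ, R⁻¹ * (nsq ζ * dW ζ) ∂(law n k γ) := by
      apply setIntegral_mono_on hiW.integrableOn (hi2.const_mul _).integrableOn hGm.compl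
      intro ζ hζ
      have h2 : R < nsq ζ := by
        simpa [hG] using hζ
      have h3 := dW_nonneg ζ
      rw [inv_mul_eq_div, le_div_iff₀ hR]
      nlinarith
    have h2 : ∫ ζ in Gᶜ, R⁻¹ * (nsq ζ * dW ζ) ∂(law n k γ) ≤ ∫ ζ, R⁻¹ * (nsq ζ * dW ζ) ∂(law n k γ) := by
      apply setIntegral_le_integral (hi2.const_mul _)
      refine Filter.Eventually.of_forall fun ζ => ?_
      have h3 := dW_nonneg ζ
      have h4 : 0 ≤ nsq ζ := by
        unfold nsq
        exact Finset.sum_nonneg fun s _ => Finset.sum_nonneg fun i _ => Complex.normSq_nonneg _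
      simp only [Pi.zero_apply]
      positivity
    have h5 : ∫ ζ : Jet n k, R⁻¹ * (nsq ζ * dW ζ) ∂(law n k γ) =
        R⁻¹ * (n * (k + 1) * (n.factorial * es (wv k) n)) := by
      rw [integral_const_mul, integral_nsq_dW h]
    rw [h5] at h2
    refine h1.trans (h2.trans ?_)
    have h3 : 0 ≤ (n.factorial : ℝ) * es (wv k) n := by positivity
    rw [inv_mul_eq_div, div_le_iff₀ hR]
    nlinarith
  have e8 : ∫ ζ, dW ζ ∂(law n k γ) = ∫ ζ in G \ B, dW ζ ∂(law n k γ) + ∫ ζ in (G \ B)ᶜ, dW ζ ∂(law n k γ) :=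
    (integral_add_compl (hGm.diff hBm) hiW).symm
  have e9 : ∫ ζ in (G \ B)ᶜ, dW ζ ∂(law n k γ) ≤
      ∫ ζ in Gᶜ, dW ζ ∂(law n k γ) + ∫ ζ in B, dW ζ ∂(law n k γ) := by
    have h1 : (G \ B)ᶜ = (Gᶜ \ B) ∪ B := by
      ext ζ
      simp only [Set.mem_compl_iff, Set.mem_diff, Set.mem_union]
      tauto
    rw [h1, setIntegral_union Set.disjoint_sdiff_left hBm hiW.integrableOn hiW.integrableOn]
    have h2 : ∫ ζ in Gᶜ \ B, dW ζ ∂(law n k γ) ≤ ∫ ζ in Gᶜ, dW ζ ∂(law n k γ) :=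
      setIntegral_mono_set hiW.integrableOn
        (Filter.Eventually.of_forall fun ζ => dW_nonneg ζ)
        (Filter.Eventually.of_forall fun ζ hζ => hζ.1)
    linarith
  rw [integral_dW h] at e8
  have e10 : (3 / 4 - p) * (n.factorial * es (wv k) n) ≤ ∫ ζ in G \ B, dW ζ ∂(law n k γ) := by
    linarith
  have e11 := mul_le_mul_of_nonneg_left e10 hc10
  rw [e1, e2, e3]
  have e12 : (1 / 2) ^ n * (‖S.det‖ ^ 2 * ((3 / 4 - p) * (n.factorial * es (wv k) n))) =
      c1 * ((3 / 4 - p) * (n.factorial * es (wv k) n)) := by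
    rw [hc1]
    ring
  rw [e12]
  linarith

/-- The coefficients are nonnegative. -/
theorem coeff_nonneg (h : StdC γ) (hnk : n ≤ k) {a c : ℝ} (ha : 0 ≤ a) (hc : 0 ≤ c)
    (S : Matrix (Fin n) (Fin n) ℂ) (i : ℕ) : 0 ≤ ((det (pm (M0 a c S) (Sᴴ * S))).coeff i).re := by
  by_cases hi : i ≤ n
  · obtain ⟨I, -, hI⟩ := Finset.exists_subset_card_eq (s := (univ : Finset (Fin k))) (n := i)
      (by rw [Finset.card_univ, Fintype.card_fin]; omega)
    have h1 := integral_Dp_re (κ := Fin k) (vec_fS (ι := Fin n) h S) (M0 a c S) I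
    have h2 : 0 ≤ ∫ ω : Fin k → (Fin n → ℂ), (Dp I (M0 a c S) (fun s => rk (fS S) (ω s))).re
        ∂(Measure.pi (fun _ : Fin k => Measure.pi (fun _ : Fin n => γ))) :=
      integral_nonneg fun ω => Dp_re_nonneg (M0_posSemidef ha hc S) I ω
    rw [h1, hI] at h2
    have h3 : (0 : ℝ) < (i.factorial : ℝ) := by positivity
    exact nonneg_of_mul_nonneg_right h2 h3
  · rw [coeff_pm_eq_zero _ _ (by rw [Fintype.card_fin]; omega)]
    simp

end

theorem errSum_le {γ : Measure ℂ} [IsProbabilityMeasure γ] (h : StdC γ) {a c : ℝ} (ha : 0 ≤ a) (hc : 0 ≤ c)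
    (S : Matrix (Fin n) (Fin n) ℂ) :
    errSum (4 * n) a c S ≤ n.factorial * es (wv (4 * n)) n * ((3 / 4) ^ n *
      ((c : ℂ) • (1 : Matrix (Fin n) (Fin n) ℂ) + ((a + 4 / 3 : ℝ) : ℂ) • (Sᴴ * S)).det.re) := by
  have h1 := sum_bound n (fun i => ((det (pm (M0 a c S) (Sᴴ * S))).coeff i).re)
    (fun i => coeff_nonneg (k := 4 * n) h (by omega) ha hc S i)
    (fun i hi => by
      rw [coeff_pm_eq_zero _ _ (by rw [Fintype.card_fin]; omega)]
      simp)
  have h2 : ∑ i ∈ range (n + 1), (4 / 3 : ℝ) ^ i * ((det (pm (M0 a c S) (Sᴴ * S))).coeff i).re =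
      ((c : ℂ) • (1 : Matrix (Fin n) (Fin n) ℂ) + ((a + 4 / 3 : ℝ) : ℂ) • (Sᴴ * S)).det.re := by
    have e1 : (c : ℂ) • (1 : Matrix (Fin n) (Fin n) ℂ) + ((a + 4 / 3 : ℝ) : ℂ) • (Sᴴ * S) =
        M0 a c S + ((4 / 3 : ℝ) : ℂ) • (Sᴴ * S) := by
      rw [M0, Complex.ofReal_add, add_smul]
      abel
    have hd : (det (pm (M0 a c S) (Sᴴ * S))).natDegree < n + 1 := by
      have := natDegree_det_X_add_C_le (Sᴴ * S) (M0 a c S)
      rw [Fintype.card_fin] at this
      exact Nat.lt_succ_of_le this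
    rw [e1, ← eval_pm, Polynomial.eval_eq_sum_range' hd, Complex.re_sum]
    apply Finset.sum_congr rfl
    intro i _
    rw [← Complex.ofReal_pow, Complex.re_mul_ofReal]
    ring
  rw [h2] at h1
  exact h1

end H97KB
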