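import Pool.Agent.H97.KB.Esym
import Pool.Agent.H57.KB.MDefs
import Pool.Agent.H64.KB.Gauss

/-!
# The bad event (module V4 of THEOREM K')
-/

set_option autoImplicit false

namespace H97KB

open MeasureTheory Finset Matrix
open scoped ComplexOrder
open Pool.H64.KB Pool.Agent.H57.KB

variable {n k : ℕ}

/-- `|ζ_s · v|²`. -/
noncomputable def qf (ζ : Jet n k) (s : Fin k) (v : Fin n → ℂ) : ℝ := ‖∑ i, ζ s i * v i‖ ^ 2

theorem qf_nonneg (ζ : Jet n k) (s : Fin k) (v : Fin n → ℂ) : 0 ≤ qf ζ s v := by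
  unfold qf
  positivity

theorem wis_isHermitian (ζ : Jet n k) : (wis ζ).IsHermitian := by
  unfold wis
  rw [Matrix.IsHermitian, Matrix.conjTranspose_sum]
  apply Finset.sum_congr rfl
  intro s _
  rw [Matrix.conjTranspose_smul, Matrix.conjTranspose_vecMulVec, star_star]
  congr 1
  exact Complex.conj_ofReal _

theorem form_eq (ζ : Jet n k) (v : Fin n → ℂ) :
    star v ⬝ᵥ (wis ζ *ᵥ v) = ((∑ s : Fin k, wv k s * qf ζ s v : ℝ) : ℂ) := by
  unfold wis
  rw [Matrix.sum_mulVec, dotProduct_sum]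
  push_cast
  apply Finset.sum_congr rfl
  intro s _
  rw [Matrix.smul_mulVec, dotProduct_smul, smul_eq_mul]
  unfold wv qf
  push_cast
  congr 1
  have h1 : star v ⬝ᵥ (vecMulVec (star (ζ s)) (ζ s) *ᵥ v) =
      (starRingEnd ℂ) (∑ i, ζ s i * v i) * (∑ i, ζ s i * v i) := by
    rw [map_sum, Finset.sum_mul]
    unfold dotProduct
    apply Finset.sum_congr rfl
    intro i _
    rw [Matrix.mulVec, dotProduct, Finset.mul_sum, Finset.mul_sum]
    apply Finset.sum_congr rfl
    intro j _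
    rw [vecMulVec_apply]
    simp only [Pi.star_apply, map_mul, RCLike.star_def]
    ring
  rw [h1, ← Complex.normSq_eq_conj_mul_self, Complex.normSq_eq_norm_sq]
  push_cast
  rfl

/-- The set where `W ≥ 2a` fails. -/
def badSet (n k : ℕ) (a : ℝ) : Set (Jet n k) :=
  {ζ | ∃ v : Fin n → ℂ, ∑ i, ‖v i‖ ^ 2 = 1 ∧ ∑ s : Fin k, wv k s * qf ζ s v < 2 * a}

/-- The larger set which depends only on the coordinates outside `I`. -/
def badI (n k : ℕ) (x : ℝ) (I : Finset (Fin k)) : Set (Jet n k) :=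
  {ζ | ∃ v : Fin n → ℂ, ∑ i, ‖v i‖ ^ 2 = 1 ∧ ∑ s ∈ Iᶜ, qf ζ s v < x}

theorem continuous_qf (s : Fin k) (v : Fin n → ℂ) : Continuous fun ζ : Jet n k => qf ζ s v := by
  unfold qf
  fun_prop

theorem isOpen_badSet (a : ℝ) : IsOpen (badSet n k a) := by
  have : badSet n k a = ⋃ v : Fin n → ℂ, ⋃ _ : ∑ i, ‖v i‖ ^ 2 = 1,
      {ζ : Jet n k | ∑ s : Fin k, wv k s * qf ζ s v < 2 * a} := by
    ext ζ
    simp [badSet]
  rw [this]
  apply isOpen_iUnion
  intro v
  apply isOpen_iUnion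
  intro _
  apply isOpen_lt _ continuous_const
  exact continuous_finset_sum _ fun s _ => continuous_const.mul (continuous_qf s v)

theorem isOpen_badI (x : ℝ) (I : Finset (Fin k)) : IsOpen (badI n k x I) := by
  have : badI n k x I = ⋃ v : Fin n → ℂ, ⋃ _ : ∑ i, ‖v i‖ ^ 2 = 1,
      {ζ : Jet n k | ∑ s ∈ Iᶜ, qf ζ s v < x} := by
    ext ζ
    simp [badI]
  rw [this]
  apply isOpen_iUnion
  intro v
  apply isOpen_iUnion
  intro _
  apply isOpen_lt _ continuous_const
  exact continuous_finset_sum _ fun s _ => continuous_qf s v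

theorem form_sub (ζ : Jet n k) (a : ℝ) (v : Fin n → ℂ) :
    star v ⬝ᵥ ((wis ζ - ((2 * a : ℝ) : ℂ) • (1 : Matrix (Fin n) (Fin n) ℂ)) *ᵥ v) =
      ((∑ s : Fin k, wv k s * qf ζ s v - 2 * a * ∑ i, ‖v i‖ ^ 2 : ℝ) : ℂ) := by
  rw [Matrix.sub_mulVec, dotProduct_sub, form_eq, Matrix.smul_mulVec, Matrix.one_mulVec, dotProduct_smul]
  have h1 : star v ⬝ᵥ v = ((∑ i, ‖v i‖ ^ 2 : ℝ) : ℂ) := by
    unfold dotProduct
    push_cast
    apply Finset.sum_congr rfl
    intro i _
    rw [Pi.star_apply, RCLike.star_def, ← Complex.normSq_eq_conj_mul_self, Complex.normSq_eq_norm_sq]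
    push_cast
    rfl
  rw [h1, smul_eq_mul]
  push_cast
  ring

theorem mem_badSet_iff (ζ : Jet n k) (a : ℝ) :
    ζ ∈ badSet n k a ↔
      ¬ (wis ζ - ((2 * a : ℝ) : ℂ) • (1 : Matrix (Fin n) (Fin n) ℂ)).PosSemidef := by
  constructor
  · rintro ⟨v, hv, hlt⟩ hps
    have h1 := hps.dotProduct_mulVec_nonneg v
    rw [form_sub, hv] at h1
    have h2 := (Complex.le_def.1 h1).1
    rw [Complex.ofReal_re] at h2
    simp only [Complex.zero_re] at h2
    linarith
  · intro h
    have hher : (wis ζ - ((2 * a : ℝ) : ℂ) • (1 : Matrix (Fin n) (Fin n) ℂ)).IsHermitian := by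
      apply (wis_isHermitian ζ).sub
      rw [Matrix.IsHermitian, Matrix.conjTranspose_smul, Matrix.conjTranspose_one]
      congr 1
      exact Complex.conj_ofReal _
    rw [Matrix.posSemidef_iff_dotProduct_mulVec] at h
    push Not at h
    obtain ⟨v, hv⟩ := h hher
    rw [form_sub] at hv
    have h2 : ∑ s : Fin k, wv k s * qf ζ s v - 2 * a * ∑ i, ‖v i‖ ^ 2 < 0 := by
      by_contra hcon
      rw [not_lt] at hcon
      apply hv
      rw [Complex.le_def]
      constructor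
      · rw [Complex.ofReal_re]
        exact hcon
      · rw [Complex.ofReal_im]
        rfl
    set r : ℝ := ∑ i, ‖v i‖ ^ 2 with hr
    have hr0 : 0 ≤ r := by rw [hr]; positivity
    have hrne : r ≠ 0 := by
      intro h0
      have hv0 : ∀ i, v i = 0 := by
        intro i
        have := (Finset.sum_eq_zero_iff_of_nonneg (fun i _ => by positivity)).1 (hr.symm.trans h0) i (mem_univ i)
        simpa using this
      have hq : ∀ s, qf ζ s v = 0 := by
        intro s
        unfold qf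
        simp [hv0]
      rw [h0] at h2
      simp [hq] at h2
    have hrpos : 0 < r := lt_of_le_of_ne hr0 (Ne.symm hrne)
    have hs : 0 < Real.sqrt r := Real.sqrt_pos.2 hrpos
    refine ⟨fun i => (((Real.sqrt r)⁻¹ : ℝ) : ℂ) * v i, ?_, ?_⟩
    · simp_rw [norm_mul, mul_pow, Complex.norm_real, Real.norm_eq_abs, sq_abs]
      rw [← Finset.mul_sum, ← hr, inv_pow, Real.sq_sqrt hr0]
      field_simp
    · have hq : ∀ s, qf ζ s (fun i => (((Real.sqrt r)⁻¹ : ℝ) : ℂ) * v i) = r⁻¹ * qf ζ s v := by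
        intro s
        unfold qf
        have : ∑ i, ζ s i * ((((Real.sqrt r)⁻¹ : ℝ) : ℂ) * v i) =
            (((Real.sqrt r)⁻¹ : ℝ) : ℂ) * ∑ i, ζ s i * v i := by
          rw [Finset.mul_sum]
          apply Finset.sum_congr rfl
          intro i _
          ring
        rw [this, norm_mul, mul_pow, Complex.norm_real, Real.norm_eq_abs, sq_abs, inv_pow,
          Real.sq_sqrt hr0]
      simp_rw [hq]
      have h3 : ∑ s : Fin k, wv k s * (r⁻¹ * qf ζ s v) = r⁻¹ * ∑ s : Fin k, wv k s * qf ζ s v := by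
        rw [Finset.mul_sum]
        apply Finset.sum_congr rfl
        intro s _
        ring
      rw [h3, inv_mul_lt_iff₀ hrpos]
      linarith

theorem badSet_subset (hk : 1 ≤ k) (a : ℝ) (I : Finset (Fin k)) :
    badSet n k a ⊆ badI n k (2 * a * k) I := by
  rintro ζ ⟨v, hv, hlt⟩
  refine ⟨v, hv, ?_⟩
  have hk0 : (0 : ℝ) < k := by exact_mod_cast hk
  have h1 : ∑ s ∈ Iᶜ, qf ζ s v ≤ ∑ s, qf ζ s v :=
    Finset.sum_le_sum_of_subset_of_nonneg (subset_univ _) fun s _ _ => qf_nonneg ζ s v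
  have h2 : ∑ s, qf ζ s v ≤ k * ∑ s : Fin k, wv k s * qf ζ s v := by
    rw [Finset.mul_sum]
    apply Finset.sum_le_sum
    intro s _
    have h3 : 1 ≤ (k : ℝ) * wv k s := by
      unfold wv
      rw [mul_one_div, le_div_iff₀ (by positivity)]
      have : (s : ℕ) + 1 ≤ k := s.2
      have : ((s : ℕ) : ℝ) + 1 ≤ k := by exact_mod_cast this
      linarith
    have h4 := qf_nonneg ζ s v
    nlinarith
  have h3 : k * ∑ s : Fin k, wv k s * qf ζ s v < k * (2 * a) := mul_lt_mul_of_pos_left hlt hk0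
  linarith

theorem badI_congr (x : ℝ) (I : Finset (Fin k)) (ζ ζ' : Jet n k) (h : ∀ s, s ∉ I → ζ s = ζ' s) :
    ζ ∈ badI n k x I ↔ ζ' ∈ badI n k x I := by
  have hq : ∀ v : Fin n → ℂ, ∑ s ∈ Iᶜ, qf ζ s v = ∑ s ∈ Iᶜ, qf ζ' s v := by
    intro v
    apply Finset.sum_congr rfl
    intro s hs
    unfold qf
    rw [h s (Finset.mem_compl.1 hs)]
  unfold badI
  simp only [Set.mem_setOf_eq, hq]

end H97KB
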