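import Mathlib

/-!
Counting lattice points of weight `m` and large degree (exponential tilting).
-/

namespace H97KB

open Finset

variable {ι : Type*} [Fintype ι] [DecidableEq ι]

/-- multi-indices `a : ι → ℕ` with weight `∑ ω i * a i = m` (every entry is at most `m`) -/
def wt (ω : ι → ℕ) (m : ℕ) : Finset (ι → ℕ) :=
  (Fintype.piFinset fun _ => range (m + 1)).filter fun a => ∑ i, ω i * a i = m

/-- multi-indices of weight `m` and degree `∑ a i ≥ p` -/
def wtdeg (ω : ι → ℕ) (m p : ℕ) : Finset (ι → ℕ) :=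
  (wt ω m).filter fun a => p ≤ ∑ i, a i

/-- multi-indices supported on `s` with weight at most `m` -/
def below (ω : ι → ℕ) (s : Finset ι) (m : ℕ) : Finset (ι → ℕ) :=
  (Fintype.piFinset fun i => if i ∈ s then range (m + 1) else {0}).filter
    fun a => ∑ i ∈ s, ω i * a i ≤ m

lemma mem_wt (ω : ι → ℕ) (hω : ∀ i, 1 ≤ ω i) (m : ℕ) (a : ι → ℕ) :
    a ∈ wt ω m ↔ ∑ i, ω i * a i = m := by
  unfold wt
  simp only [mem_filter, Fintype.mem_piFinset, mem_range, and_iff_right_iff_imp]
  intro h i
  have h1 : ω i * a i ≤ ∑ i, ω i * a i :=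
    Finset.single_le_sum (f := fun i => ω i * a i) (fun _ _ => Nat.zero_le _) (mem_univ i)
  have h2 : a i ≤ ω i * a i := Nat.le_mul_of_pos_left _ (hω i)
  omega

lemma mem_below (ω : ι → ℕ) (hω : ∀ i, 1 ≤ ω i) (s : Finset ι) (m : ℕ) (a : ι → ℕ) :
    a ∈ below ω s m ↔ (∀ i, i ∉ s → a i = 0) ∧ ∑ i ∈ s, ω i * a i ≤ m := by
  unfold below
  simp only [mem_filter, Fintype.mem_piFinset]
  constructor
  · rintro ⟨h, h'⟩
    refine ⟨fun i hi => ?_, h'⟩
    have := h i
    rw [if_neg hi] at this
    simpa using this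
  · rintro ⟨h, h'⟩
    refine ⟨fun i => ?_, h'⟩
    by_cases hi : i ∈ s
    · rw [if_pos hi, mem_range]
      have h1 : ω i * a i ≤ ∑ i ∈ s, ω i * a i :=
        Finset.single_le_sum (f := fun i => ω i * a i) (fun _ _ => Nat.zero_le _) hi
      have h2 : a i ≤ ω i * a i := Nat.le_mul_of_pos_left _ (hω i)
      omega
    · rw [if_neg hi]; simpa using h i hi

/-- `1 / (1 - exp (-c)) ≤ 1 + 1 / c` -/
lemma geom_le {c : ℝ} (hc : 0 < c) : (1 - Real.exp (-c))⁻¹ ≤ 1 + 1 / c := by
  have h1 : Real.exp (-c) ≤ 1 / (1 + c) := by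
    rw [Real.exp_neg, ← one_div]
    apply one_div_le_one_div_of_le (by linarith)
    have := Real.add_one_le_exp c
    linarith
  have h2 : c / (1 + c) ≤ 1 - Real.exp (-c) := by
    have : c / (1 + c) = 1 - 1 / (1 + c) := by field_simp; ring
    rw [this]; linarith
  have h3 : 0 < c / (1 + c) := by positivity
  calc (1 - Real.exp (-c))⁻¹ ≤ (c / (1 + c))⁻¹ := inv_anti₀ h3 h2
    _ = 1 + 1 / c := by field_simp; ring

lemma sum_geom_le {c : ℝ} (hc : 0 < c) (M : ℕ) :
    ∑ b ∈ range M, Real.exp (-(c * b)) ≤ 1 + 1 / c := by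
  have hlt : Real.exp (-c) < 1 := by
    rw [Real.exp_lt_one_iff]; linarith
  have hpos : 0 ≤ Real.exp (-c) := (Real.exp_pos _).le
  have h1 : ∀ b : ℕ, Real.exp (-(c * b)) = Real.exp (-c) ^ b := by
    intro b; rw [← Real.exp_nat_mul]; congr 1; ring
  calc ∑ b ∈ range M, Real.exp (-(c * b)) = ∑ b ∈ range M, Real.exp (-c) ^ b :=
        Finset.sum_congr rfl fun b _ => h1 b
    _ ≤ ∑' b : ℕ, Real.exp (-c) ^ b :=
        Summable.sum_le_tsum _ (fun _ _ => by positivity) (summable_geometric_of_lt_one hpos hlt)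
    _ = (1 - Real.exp (-c))⁻¹ := tsum_geometric_of_lt_one hpos hlt
    _ ≤ _ := geom_le hc

/-- Finite Chernoff bound: multi-indices of weight `m` and degree at least `p`. -/
theorem chern (ω : ι → ℕ) (hω : ∀ i, 1 ≤ ω i) (i0 : ι) (hi0 : ω i0 = 1) (m p : ℕ) (hm : 1 ≤ m)
    (S θ : ℝ) (hθ : 0 ≤ θ) (hS : θ < S) :
    ((wtdeg ω m p).card : ℝ) ≤
      Real.exp (S - θ * p / m) * ∏ i ∈ univ.erase i0, (1 + m / (S * ω i - θ)) := by
  classical
  have hm' : (0 : ℝ) < m := by exact_mod_cast hm
  have hSpos : 0 < S := lt_of_le_of_lt hθ hS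
  have hc : ∀ i, 0 < S * ω i - θ := by
    intro i
    have h1 : (1 : ℝ) ≤ ω i := by exact_mod_cast hω i
    nlinarith
  set F : ι → ℕ → ℝ := fun i b => if i = i0 then 1 else Real.exp (-((S * ω i - θ) / m * b)) with hF
  have hFpos : ∀ i b, 0 < F i b := by
    intro i b; simp only [hF]; split_ifs
    · exact one_pos
    · exact Real.exp_pos _
  -- pointwise bound
  have key : ∀ a ∈ wtdeg ω m p, (1 : ℝ) ≤ Real.exp (S - θ * p / m) * ∏ i, F i (a i) := by
    intro a ha
    unfold wtdeg at ha
    rw [mem_filter, mem_wt ω hω] at ha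
    obtain ⟨h1, h2⟩ := ha
    have h1' : (∑ i, (ω i : ℝ) * a i) = m := by exact_mod_cast h1
    have h2' : (p : ℝ) ≤ ∑ i, (a i : ℝ) := by exact_mod_cast h2
    have hprod : ∏ i, F i (a i) = Real.exp (∑ i ∈ univ.erase i0, -((S * ω i - θ) / m * a i)) := by
      rw [← Finset.mul_prod_erase univ (fun i => F i (a i)) (mem_univ i0), Real.exp_sum]
      have : F i0 (a i0) = 1 := by simp [hF]
      rw [this, one_mul]
      apply Finset.prod_congr rfl
      intro i hi
      have : i ≠ i0 := (mem_erase.mp hi).1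
      simp [hF, this]
    rw [hprod, ← Real.exp_add]
    apply Real.one_le_exp
    have e1 : (∑ i ∈ univ.erase i0, (ω i : ℝ) * a i) = m - a i0 := by
      have := Finset.add_sum_erase univ (fun i => (ω i : ℝ) * a i) (mem_univ i0)
      simp only [hi0, Nat.cast_one, one_mul] at this
      linarith
    have e2 : (∑ i ∈ univ.erase i0, (a i : ℝ)) = (∑ i, (a i : ℝ)) - a i0 := by
      have := Finset.add_sum_erase univ (fun i => (a i : ℝ)) (mem_univ i0)
      linarith
    have e3 : (∑ i ∈ univ.erase i0, -((S * ω i - θ) / m * a i))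
        = -(S * (m - a i0) - θ * ((∑ i, (a i : ℝ)) - a i0)) / m := by
      rw [← e1, ← e2, Finset.mul_sum, Finset.mul_sum, ← Finset.sum_sub_distrib, ← Finset.sum_neg_distrib,
        Finset.sum_div]
      apply Finset.sum_congr rfl
      intro i _
      ring
    rw [e3]
    have e4 : S - θ * p / m + -(S * (m - a i0) - θ * ((∑ i, (a i : ℝ)) - a i0)) / m
        = (θ * ((∑ i, (a i : ℝ)) - p) + (S - θ) * a i0) / m := by
      field_simp
      ring
    rw [e4]
    have : (0 : ℝ) ≤ a i0 := Nat.cast_nonneg _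
    apply div_nonneg _ hm'.le
    have t1 : 0 ≤ θ * ((∑ i, (a i : ℝ)) - p) := mul_nonneg hθ (by linarith)
    have t2 : 0 ≤ (S - θ) * (a i0 : ℝ) := mul_nonneg (by linarith) this
    linarith
  set t : ι → Finset ℕ := fun i => if i = i0 then {0} else range (m + 1) with ht
  have hinj : Set.InjOn (fun a : ι → ℕ => Function.update a i0 0) (wtdeg ω m p : Set (ι → ℕ)) := by
    intro a ha b hb hab
    have ha' : ∑ i, ω i * a i = m := by
      have := (mem_filter.mp (Finset.mem_coe.mp ha)).1
      rwa [mem_wt ω hω] at this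
    have hb' : ∑ i, ω i * b i = m := by
      have := (mem_filter.mp (Finset.mem_coe.mp hb)).1
      rwa [mem_wt ω hω] at this
    have hne : ∀ i, i ≠ i0 → a i = b i := by
      intro i hi
      have := congrFun hab i
      simpa [Function.update_of_ne hi] using this
    have s1 := Finset.add_sum_erase univ (fun i => ω i * a i) (mem_univ i0)
    have s2 := Finset.add_sum_erase univ (fun i => ω i * b i) (mem_univ i0)
    have s3 : ∑ i ∈ univ.erase i0, ω i * a i = ∑ i ∈ univ.erase i0, ω i * b i :=
      Finset.sum_congr rfl fun i hi => by rw [hne i (mem_erase.mp hi).1]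
    funext i
    by_cases hi : i = i0
    · subst hi
      simp only [hi0, one_mul] at s1 s2
      omega
    · exact hne i hi
  have himg : ∀ a ∈ wtdeg ω m p, Function.update a i0 0 ∈ Fintype.piFinset t := by
    intro a ha
    rw [Fintype.mem_piFinset]
    intro i
    by_cases hi : i = i0
    · subst hi; simp [ht]
    · rw [Function.update_of_ne hi]
      have h0 : a ∈ Fintype.piFinset fun _ : ι => range (m + 1) :=
        (mem_filter.mp (mem_filter.mp ha).1).1
      have := Fintype.mem_piFinset.mp h0 i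
      simpa [ht, hi] using this
  calc ((wtdeg ω m p).card : ℝ) = ∑ a ∈ wtdeg ω m p, (1 : ℝ) := by simp
    _ ≤ ∑ a ∈ wtdeg ω m p, Real.exp (S - θ * p / m) * ∏ i, F i (a i) := Finset.sum_le_sum key
    _ = Real.exp (S - θ * p / m) * ∑ a ∈ wtdeg ω m p, ∏ i, F i (a i) := by rw [Finset.mul_sum]
    _ ≤ Real.exp (S - θ * p / m) * ∏ i ∈ univ.erase i0, (1 + m / (S * ω i - θ)) := by
        apply mul_le_mul_of_nonneg_left _ (Real.exp_pos _).le
        have hF0 : ∀ a : ι → ℕ, ∏ i, F i (a i) = ∏ i, F i ((Function.update a i0 0) i) := by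
          intro a
          apply Finset.prod_congr rfl
          intro i _
          by_cases hi : i = i0
          · subst hi; simp [hF]
          · rw [Function.update_of_ne hi]
        calc ∑ a ∈ wtdeg ω m p, ∏ i, F i (a i)
            = ∑ a ∈ wtdeg ω m p, ∏ i, F i ((Function.update a i0 0) i) :=
              Finset.sum_congr rfl fun a _ => hF0 a
          _ = ∑ b ∈ (wtdeg ω m p).image (fun a => Function.update a i0 0), ∏ i, F i (b i) := by
              rw [Finset.sum_image hinj]
          _ ≤ ∑ b ∈ Fintype.piFinset t, ∏ i, F i (b i) := by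
              apply Finset.sum_le_sum_of_subset_of_nonneg
              · intro b hb
                obtain ⟨a, ha, rfl⟩ := mem_image.mp hb
                exact himg a ha
              · intro b _ _
                exact Finset.prod_nonneg fun i _ => (hFpos i _).le
          _ = ∏ i, ∑ b ∈ t i, F i b := by rw [Finset.prod_univ_sum]
          _ = ∏ i ∈ univ.erase i0, ∑ b ∈ t i, F i b := by
              rw [← Finset.mul_prod_erase univ (fun i => ∑ b ∈ t i, F i b) (mem_univ i0)]
              simp [ht, hF]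
          _ ≤ ∏ i ∈ univ.erase i0, (1 + m / (S * ω i - θ)) := by
              apply Finset.prod_le_prod
              · intro i _
                exact Finset.sum_nonneg fun b _ => (hFpos i b).le
              · intro i hi
                have hne : i ≠ i0 := (mem_erase.mp hi).1
                simp only [ht, hF, if_neg hne]
                have hci : 0 < (S * ω i - θ) / m := div_pos (hc i) hm'
                have := sum_geom_le hci (m + 1)
                refine this.trans (le_of_eq ?_)
                rw [one_div_div]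

end H97KB
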