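import Mathlib

/-!
# Elementary symmetric functions of `1, 1/2, .., 1/(4n)` (module V4 of THEOREM K')
-/

set_option autoImplicit false

open Finset

namespace H97KB

/-- Elementary symmetric functions of a finite family. -/
noncomputable def es {κ : Type*} [Fintype κ] [DecidableEq κ] (w : κ → ℝ) (i : ℕ) : ℝ :=
  ∑ I ∈ powersetCard i (univ : Finset κ), ∏ s ∈ I, w s

section

variable {κ : Type*} [Fintype κ] [DecidableEq κ]

theorem es_nonneg {w : κ → ℝ} (hw : ∀ s, 0 ≤ w s) (i : ℕ) : 0 ≤ es w i :=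
  sum_nonneg fun _ _ => prod_nonneg fun s _ => hw s

theorem es_zero (w : κ → ℝ) : es w 0 = 1 := by
  unfold es
  simp

/-- Double counting. -/
theorem es_succ (w : κ → ℝ) (i : ℕ) :
    ((i : ℝ) + 1) * es w (i + 1) =
      ∑ I ∈ powersetCard i (univ : Finset κ), (∏ s ∈ I, w s) * ∑ s ∈ Iᶜ, w s := by
  have h1 : ((i : ℝ) + 1) * es w (i + 1) =
      ∑ J ∈ powersetCard (i + 1) (univ : Finset κ), ∑ _s ∈ J, ∏ s ∈ J, w s := by
    unfold es
    rw [mul_sum]
    apply sum_congr rfl
    intro J hJ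
    rw [mem_powersetCard] at hJ
    rw [sum_const, hJ.2, nsmul_eq_mul]
    push_cast
    ring
  rw [h1]
  have h2 : ∑ I ∈ powersetCard i (univ : Finset κ), (∏ s ∈ I, w s) * ∑ s ∈ Iᶜ, w s =
      ∑ I ∈ powersetCard i (univ : Finset κ), ∑ t ∈ Iᶜ, (∏ s ∈ I, w s) * w t := by
    apply sum_congr rfl
    intro I _
    rw [mul_sum]
  rw [h2, sum_sigma', sum_sigma']
  refine sum_bij' (fun x _ => ⟨x.1.erase x.2, x.2⟩) (fun x _ => ⟨insert x.2 x.1, x.2⟩) ?_ ?_ ?_ ?_ ?_
  · rintro ⟨J, t⟩ h
    simp only [mem_sigma, mem_powersetCard, subset_univ, true_and, mem_compl] at h ⊢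
    refine ⟨?_, by simp⟩
    rw [card_erase_of_mem h.2, h.1]
    rfl
  · rintro ⟨I, t⟩ h
    simp only [mem_sigma, mem_powersetCard, subset_univ, true_and, mem_compl] at h ⊢
    refine ⟨?_, by simp⟩
    rw [card_insert_of_notMem h.2, h.1]
  · rintro ⟨J, t⟩ h
    simp only [mem_sigma, mem_powersetCard, subset_univ, true_and] at h
    simp only [insert_erase h.2]
  · rintro ⟨I, t⟩ h
    simp only [mem_sigma, mem_powersetCard, subset_univ, true_and, mem_compl] at h
    simp only [erase_insert h.2]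
  · rintro ⟨J, t⟩ h
    simp only [mem_sigma, mem_powersetCard, subset_univ, true_and] at h
    simp only
    rw [prod_erase_mul _ _ h.2]

end

/-- The weights `1, 1/2, .., 1/k`. -/
noncomputable def wv (k : ℕ) (s : Fin k) : ℝ := 1 / ((s : ℝ) + 1)

theorem wv_pos (k : ℕ) (s : Fin k) : 0 < wv k s := by
  unfold wv
  positivity

theorem harm (n : ℕ) (hn : 1 ≤ n) : (4 : ℝ) / 3 ≤ ∑ j ∈ Finset.Ico n (4 * n + 1), (1 : ℝ) / j := by
  have hn0 : (0 : ℝ) < n := by exact_mod_cast hn
  have h1 : ∑ j ∈ Finset.Ico n (4 * n + 1), (Real.log ((j + 1 : ℕ) : ℝ) - Real.log (j : ℝ)) =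
      Real.log ((4 * n + 1 : ℕ) : ℝ) - Real.log (n : ℝ) :=
    Finset.sum_Ico_sub (fun j : ℕ => Real.log (j : ℝ)) (by omega)
  have h2 : ∑ j ∈ Finset.Ico n (4 * n + 1), (Real.log ((j + 1 : ℕ) : ℝ) - Real.log (j : ℝ)) ≤
      ∑ j ∈ Finset.Ico n (4 * n + 1), (1 : ℝ) / j := by
    apply sum_le_sum
    intro j hj
    rw [Finset.mem_Ico] at hj
    have hj0 : (0 : ℝ) < j := by
      have : 0 < j := by omega
      exact_mod_cast this
    rw [← Real.log_div (by positivity) (by positivity)]
    have := Real.log_le_sub_one_of_pos (show (0 : ℝ) < ((j + 1 : ℕ) : ℝ) / j by positivity)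
    refine this.trans (le_of_eq ?_)
    push_cast
    field_simp
    ring
  have h3 : Real.log 4 ≤ Real.log ((4 * n + 1 : ℕ) : ℝ) - Real.log (n : ℝ) := by
    rw [← Real.log_div (by positivity) (by positivity)]
    apply Real.log_le_log (by norm_num)
    rw [le_div_iff₀ hn0]
    push_cast
    linarith
  have h4 : (4 : ℝ) / 3 ≤ Real.log 4 := by
    have : Real.log 4 = 2 * Real.log 2 := by
      rw [show (4 : ℝ) = 2 ^ 2 by norm_num, Real.log_pow]
      norm_num
    rw [this]
    have := Real.log_two_gt_d9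
    linarith
  linarith

/-- The sum of the weights over a set of at least `3n + 1` indices is at least `4/3`. -/
theorem sum_wv (n : ℕ) (hn : 1 ≤ n) (T : Finset (Fin (4 * n))) (hT : 3 * n + 1 ≤ T.card) :
    (4 : ℝ) / 3 ≤ ∑ s ∈ T, wv (4 * n) s := by
  have hn0 : (0 : ℝ) < n := by exact_mod_cast hn
  set H : Finset (Fin (4 * n)) := univ.filter (fun s => n - 1 ≤ (s : ℕ)) with hH
  have hHs : ∑ s ∈ H, wv (4 * n) s = ∑ j ∈ Finset.Ico n (4 * n + 1), (1 : ℝ) / j := by
    refine sum_bij (fun s _ => (s : ℕ) + 1) ?_ ?_ ?_ ?_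
    · intro s hs
      rw [hH, mem_filter] at hs
      rw [Finset.mem_Ico]
      have := s.2
      omega
    · intro a _ b _ h
      ext
      simpa using h
    · intro j hj
      rw [Finset.mem_Ico] at hj
      refine ⟨⟨j - 1, by omega⟩, ?_, ?_⟩
      · rw [hH, mem_filter]
        exact ⟨mem_univ _, by simp only; omega⟩
      · simp only
        omega
    · intro s _
      unfold wv
      push_cast
      rfl
  have hHc : (H.card : ℝ) = 3 * n + 1 := by
    have : H.card = (Finset.Ico n (4 * n + 1)).card := by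
      refine card_bij (fun s _ => (s : ℕ) + 1) ?_ ?_ ?_
      · intro s hs
        rw [hH, mem_filter] at hs
        rw [Finset.mem_Ico]
        have := s.2
        omega
      · intro a _ b _ h
        ext
        simpa using h
      · intro j hj
        rw [Finset.mem_Ico] at hj
        refine ⟨⟨j - 1, by omega⟩, ?_, ?_⟩
        · rw [hH, mem_filter]
          exact ⟨mem_univ _, by simp only; omega⟩
        · simp only
          omega
    rw [this, Nat.card_Ico]
    have h2 : 4 * n + 1 - n = 3 * n + 1 := by omega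
    rw [h2]
    push_cast
    ring
  have hc : ∀ s : Fin (4 * n), s ∈ H → wv (4 * n) s - 1 / n ≤ 0 := by
    intro s hs
    rw [hH, mem_filter] at hs
    have : (n : ℝ) ≤ (s : ℝ) + 1 := by
      have : n ≤ (s : ℕ) + 1 := by omega
      exact_mod_cast this
    unfold wv
    rw [sub_nonpos]
    exact one_div_le_one_div_of_le hn0 this
  have hc' : ∀ s : Fin (4 * n), s ∉ H → 0 ≤ wv (4 * n) s - 1 / n := by
    intro s hs
    rw [hH, mem_filter] at hs
    have : (s : ℝ) + 1 ≤ n := by
      have : (s : ℕ) + 1 ≤ n := by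
        by_contra hcon
        exact hs ⟨mem_univ _, by omega⟩
      exact_mod_cast this
    unfold wv
    rw [sub_nonneg]
    exact one_div_le_one_div_of_le (by positivity) this
  have h1 : ∑ s ∈ H, (wv (4 * n) s - 1 / n) ≤ ∑ s ∈ T, (wv (4 * n) s - 1 / n) := by
    have e1 : ∑ s ∈ T, (wv (4 * n) s - 1 / n) = ∑ s ∈ T.filter (· ∈ H), (wv (4 * n) s - 1 / n) +
        ∑ s ∈ T.filter (fun s => ¬ s ∈ H), (wv (4 * n) s - 1 / n) :=
      (sum_filter_add_sum_filter_not T _ _).symm
    have e2 : 0 ≤ ∑ s ∈ T.filter (fun s => ¬ s ∈ H), (wv (4 * n) s - 1 / n) := by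
      apply sum_nonneg
      intro s hs
      exact hc' s (mem_filter.1 hs).2
    have e3 : ∑ s ∈ H, (wv (4 * n) s - 1 / n) ≤
        ∑ s ∈ T.filter (· ∈ H), (wv (4 * n) s - 1 / n) := by
      have : T.filter (· ∈ H) ⊆ H := fun s hs => (mem_filter.1 hs).2
      rw [← sum_sdiff this]
      have : ∑ s ∈ H \ T.filter (· ∈ H), (wv (4 * n) s - 1 / n) ≤ 0 := by
        apply sum_nonpos
        intro s hs
        exact hc s (mem_sdiff.1 hs).1
      linarith
    linarith
  rw [sum_sub_distrib, sum_sub_distrib, sum_const, sum_const, nsmul_eq_mul, nsmul_eq_mul, hHc, hHs] at h1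
  have h2 : (3 * (n : ℝ) + 1) ≤ T.card := by exact_mod_cast hT
  have h3 : (3 * (n : ℝ) + 1) * (1 / n) ≤ T.card * (1 / n) := by
    apply mul_le_mul_of_nonneg_right h2 (by positivity)
  have := harm n hn
  linarith

theorem es_step (n i : ℕ) (h : i + 1 ≤ n) :
    es (wv (4 * n)) i ≤ 3 / 4 * (((i : ℝ) + 1) * es (wv (4 * n)) (i + 1)) := by
  rw [es_succ]
  have : ∑ I ∈ powersetCard i (univ : Finset (Fin (4 * n))), (∏ s ∈ I, wv (4 * n) s) * (4 / 3) ≤
      ∑ I ∈ powersetCard i (univ : Finset (Fin (4 * n))), (∏ s ∈ I, wv (4 * n) s) * ∑ s ∈ Iᶜ, wv (4 * n) s := by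
    apply sum_le_sum
    intro I hI
    rw [mem_powersetCard] at hI
    apply mul_le_mul_of_nonneg_left
    · apply sum_wv n (by omega)
      rw [card_compl, Fintype.card_fin, hI.2]
      omega
    · exact prod_nonneg fun s _ => (wv_pos _ s).le
  rw [← sum_mul] at this
  change es (wv (4 * n)) i * (4 / 3) ≤ _ at this
  linarith

theorem es_bound_aux (n : ℕ) : ∀ j i : ℕ, i + j ≤ n → (i.factorial : ℝ) * es (wv (4 * n)) i ≤
    (i + j).factorial * (3 / 4) ^ j * es (wv (4 * n)) (i + j) := by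
  intro j
  induction j with
  | zero =>
    intro i _
    simp
  | succ j ih =>
    intro i h
    refine (ih i (by omega)).trans ?_
    have h1 := es_step n (i + j) (by omega)
    have h2 : ((i + j).factorial : ℝ) * (3 / 4) ^ j * es (wv (4 * n)) (i + j) ≤
        ((i + j).factorial : ℝ) * (3 / 4) ^ j *
          (3 / 4 * ((((i + j : ℕ) : ℝ) + 1) * es (wv (4 * n)) (i + j + 1))) :=
      mul_le_mul_of_nonneg_left h1 (by positivity)
    refine h2.trans (le_of_eq ?_)
    rw [show i + (j + 1) = i + j + 1 by ring, Nat.factorial_succ]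
    push_cast
    ring

theorem es_bound (n i : ℕ) (h : i ≤ n) :
    (i.factorial : ℝ) * es (wv (4 * n)) i ≤ n.factorial * (3 / 4) ^ (n - i) * es (wv (4 * n)) n := by
  have := es_bound_aux n (n - i) i (by omega)
  rwa [show i + (n - i) = n by omega] at this

theorem one_le_es (n : ℕ) : 1 ≤ n.factorial * es (wv (4 * n)) n := by
  have h := es_bound n 0 (Nat.zero_le n)
  rw [es_zero] at h
  have h2 : (3 / 4 : ℝ) ^ (n - 0) ≤ 1 := pow_le_one₀ (by norm_num) (by norm_num)
  have h3 : 0 ≤ (n.factorial : ℝ) * es (wv (4 * n)) n :=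
    mul_nonneg (by positivity) (es_nonneg (fun s => (wv_pos _ s).le) n)
  have h4 : (n.factorial : ℝ) * (3 / 4) ^ (n - 0) * es (wv (4 * n)) n =
      (n.factorial * es (wv (4 * n)) n) * (3 / 4) ^ (n - 0) := by ring
  rw [h4] at h
  have h5 := mul_le_mul_of_nonneg_left h2 h3
  simp only [Nat.factorial_zero, Nat.cast_one, mul_one] at h
  linarith

/-- The sum of the expansion is bounded by one value of the determinant. -/
theorem sum_bound (n : ℕ) (c : ℕ → ℝ) (hc : ∀ i, 0 ≤ c i) (h0 : ∀ i, n < i → c i = 0) :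
    ∑ I : Finset (Fin (4 * n)), (∏ s ∈ I, wv (4 * n) s) * ((I.card.factorial : ℝ) * c I.card) ≤
      n.factorial * es (wv (4 * n)) n * ((3 / 4) ^ n * ∑ i ∈ range (n + 1), (4 / 3) ^ i * c i) := by
  have h1 : ∑ I : Finset (Fin (4 * n)), (∏ s ∈ I, wv (4 * n) s) * ((I.card.factorial : ℝ) * c I.card) =
      ∑ j ∈ range (4 * n + 1), ((j.factorial : ℝ) * c j) * es (wv (4 * n)) j := by
    rw [← Finset.powerset_univ, Finset.sum_powerset, Finset.card_univ, Fintype.card_fin]
    apply sum_congr rfl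
    intro j _
    unfold es
    rw [mul_sum]
    apply sum_congr rfl
    intro I hI
    rw [mem_powersetCard] at hI
    rw [hI.2]
    ring
  have h2 : ∑ j ∈ range (4 * n + 1), ((j.factorial : ℝ) * c j) * es (wv (4 * n)) j =
      ∑ j ∈ range (n + 1), ((j.factorial : ℝ) * c j) * es (wv (4 * n)) j := by
    symm
    apply sum_subset
    · intro j hj
      rw [mem_range] at hj ⊢
      omega
    · intro j _ hj
      rw [mem_range, not_lt] at hj
      rw [h0 j (by omega)]
      ring
  rw [h1, h2, ← mul_assoc, mul_sum]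
  apply sum_le_sum
  intro i hi
  rw [mem_range] at hi
  have h3 := es_bound n i (by omega)
  have h4 : (3 / 4 : ℝ) ^ n * (4 / 3) ^ i = (3 / 4) ^ (n - i) := by
    have : n = (n - i) + i := by omega
    nth_rewrite 1 [this]
    rw [pow_add, mul_assoc, ← mul_pow]
    norm_num
  calc ((i.factorial : ℝ) * c i) * es (wv (4 * n)) i = ((i.factorial : ℝ) * es (wv (4 * n)) i) * c i := by ring
    _ ≤ (n.factorial * (3 / 4) ^ (n - i) * es (wv (4 * n)) n) * c i :=
        mul_le_mul_of_nonneg_right h3 (hc i)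
    _ = n.factorial * es (wv (4 * n)) n * (3 / 4) ^ n * ((4 / 3) ^ i * c i) := by
        rw [← h4]
        ring

end H97KB
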