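import Pool.Agent.H97.KB.Tot
import Pool.Agent.H51.KB.Std

/-!
# Green-Griffiths-Lang for general hypersurfaces of degree `C n² (1 + log n)` (module V4)
-/

set_option autoImplicit false

namespace H97KB

open MeasureTheory Finset Matrix Real
open Pool.H64.KB Pool.Agent.H57.KB Pool.Agent.H47.KB Pool.Agent.H51.KB

theorem badI_mono {n k : ℕ} {x x' : ℝ} (h : x ≤ x') (I : Finset (Fin k)) : badI n k x I ⊆ badI n k x' I := by
  rintro ζ ⟨v, hv, hlt⟩
  exact ⟨v, hv, lt_of_lt_of_le hlt h⟩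

theorem TailB.mono {n k : ℕ} {γ : Measure ℂ} [IsProbabilityMeasure γ] {x x' p : ℝ} (h : x ≤ x')
    (ht : TailB n k γ x' p) : TailB n k γ x p := by
  intro I hI
  refine le_trans ?_ (ht I hI)
  exact measureReal_mono (badI_mono h I)

/-- The assembly, with the tail and the volume inequality as hypotheses. -/
theorem gglA_of {n d : ℕ} (hn : 2 ≤ n) (T : MorseFacts n (4 * n) d) (y : ℚ) (hy : 0 < y) (hy1 : y ≤ 1)
    (ht : TailB n (4 * n) Pool.Agent.H51.KB.gc ((y : ℝ) * n) ((1 / 20) ^ n))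
    (hd : 19680 / (y : ℝ) * ((n : ℝ) ^ 2 * (1 + log n)) ≤ d)
    (hint : ∀ a c R : ℝ, Integrable (fun z => ∫ ζ in {ζ : Jet n (4 * n) | nsq ζ ≤ R},
      low a c (T.S z) ζ ∂(law n (4 * n) Pool.Agent.H51.KB.gc)) T.μ)
    (hvol : ∀ t : ℚ, 0 ≤ t → ∀ R : ℝ, 0 < R → ∀ κ : ℝ, 0 ≤ κ →
      κ * (n.factorial * ((4 * n).factorial : ℝ) ^ n * (dimN n (4 * n)).factorial) <
        ∫ z, ∫ ζ in {ζ : Jet n (4 * n) | nsq ζ ≤ R}, low (t * R / (d - 1)) (2 * R) (T.S z) ζ
          ∂(law n (4 * n) Pool.Agent.H51.KB.gc) ∂T.μ →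
      ∃ D : ℕ, 0 < D ∧ ∃ m₀ : ℕ, ∀ m : ℕ, m₀ ≤ m → D ∣ m → ∀ b : ℕ, (b : ℚ) = (t - 2) * m →
        κ * (m : ℝ) ^ (n + 4 * n * n - 1) ≤ T.h0 m b) : GGL n d := by
  have hyr : (0 : ℝ) < y := by exact_mod_cast hy
  have hyr1 : (y : ℝ) ≤ 1 := by exact_mod_cast hy1
  have hn0 : (2 : ℝ) ≤ n := by exact_mod_cast hn
  have hnpos : (0 : ℝ) < n := by linarith
  have hD := numD n d hn y hyr hyr1 hd
  have hd6r : (6 : ℝ) ≤ d := by nlinarith
  have hd6 : 6 ≤ d := by exact_mod_cast hd6r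
  have hd1 : (0 : ℝ) < (d : ℝ) - 1 := by linarith
  set t : ℚ := y * ((d : ℚ) - 1) / (160 * n ^ 2) with htdef
  have htr : (t : ℝ) = y * ((d : ℝ) - 1) / (160 * n ^ 2) := by
    rw [htdef]
    push_cast
    rfl
  have ht0 : 0 ≤ t := by
    have : (0 : ℝ) ≤ t := by
      rw [htr]
      positivity
    exact_mod_cast this
  set R : ℝ := 4 * (n * (4 * n + 1)) with hR
  have hR0 : 0 < R := by positivity
  set a : ℝ := t * R / (d - 1) with hadef
  have haeq : a = y * (4 * n + 1) / (40 * n) := by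
    rw [hadef, htr, hR]
    field_simp
    ring
  have ha0 : 0 ≤ a := by
    rw [haeq]
    positivity
  have ha1 : a ≤ 2 / 15 := by
    rw [haeq, div_le_iff₀ (by positivity)]
    nlinarith
  have hax : 2 * a * (4 * n : ℕ) ≤ (y : ℝ) * n := by
    rw [haeq]
    push_cast
    have : 2 * ((y : ℝ) * (4 * n + 1) / (40 * n)) * (4 * n) = y * ((4 * n + 1) / 5) := by
      field_simp
      ring
    rw [this]
    apply mul_le_mul_of_nonneg_left _ hyr.le
    linarith
  set κ : ℝ := (1 / 2) * ((1 / 5) ^ n * (d * ((d : ℝ) - 1) ^ n * (n.factorial * es (wv (4 * n)) n))) /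
        (n.factorial * ((4 * n).factorial : ℝ) ^ n * (n + 4 * n * n - 1).factorial) with hκ
  have hE := one_le_es n
  have hV0 : 0 < (1 / 5 : ℝ) ^ n * (d * ((d : ℝ) - 1) ^ n * (n.factorial * es (wv (4 * n)) n)) := by
    have : 0 < (n.factorial : ℝ) * es (wv (4 * n)) n := by linarith
    positivity
  have htot := total (n := n) (γ := Pool.Agent.H51.KB.gc) (ν := T.μ) (S := T.S) (δ := d) (D := (d : ℝ) - 1)
    Pool.Agent.H51.KB.stdC hn (by linarith) hD T.chern ha0 ha1 (le_refl _) (ht.mono hax) (hint _ _ _)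
  have hden : (0 : ℝ) < n.factorial * ((4 * n).factorial : ℝ) ^ n * (n + 4 * n * n - 1).factorial := by
    positivity
  refine core T.toJets (by omega) (by omega) (by nlinarith) (by omega) (qA n) κ (t - 2)
    (qA_nonneg n (by omega)) ?_ ?_ ?_
  · have := numC n d hn y hyr hyr1 hd
    push_cast at this ⊢
    rw [htr]
    exact this
  · apply hvol t ht0 R hR0 κ (by positivity)
    refine lt_of_lt_of_le ?_ htot
    have h1 : κ * (n.factorial * ((4 * n).factorial : ℝ) ^ n * (dimN n (4 * n)).factorial) =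
        (1 / 2) * ((1 / 5) ^ n * (d * ((d : ℝ) - 1) ^ n * (n.factorial * es (wv (4 * n)) n))) := by
      have h2 : dimN n (4 * n) = n + 4 * n * n - 1 := rfl
      rw [h2, hκ]
      exact div_mul_cancel₀ _ hden.ne'
    rw [h1]
    linarith
  · exact numB n d hn hd6

end H97KB
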