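import Pool.Agent.H97.KB.Chern

/-!
Lower bound for the number of multi-indices of weight `m`: at least `m^M / (M! ∏ ω i)`.
-/

namespace H97KB

open Finset

variable {ι : Type*} [Fintype ι] [DecidableEq ι]

/-- mean value inequality for powers, `y ≤ x`: `x^(M+1) - y^(M+1) ≤ (M+1) x^M (x-y)` -/
lemma pow_sub_le {x y : ℝ} (hy : 0 ≤ y) (hxy : y ≤ x) (M : ℕ) :
    x ^ (M + 1) - y ^ (M + 1) ≤ (M + 1) * x ^ M * (x - y) := by
  induction M with
  | zero => simp
  | succ M ih =>
    have hx : 0 ≤ x := hy.trans hxy
    have h1 : y ^ (M + 1) ≤ x ^ (M + 1) := pow_le_pow_left₀ hy hxy _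
    have h2 : x ^ (M + 1 + 1) - y ^ (M + 1 + 1)
        = x * (x ^ (M + 1) - y ^ (M + 1)) + y ^ (M + 1) * (x - y) := by ring
    rw [h2]
    have h3 : x * (x ^ (M + 1) - y ^ (M + 1)) ≤ x * ((M + 1) * x ^ M * (x - y)) :=
      mul_le_mul_of_nonneg_left ih hx
    have h4 : y ^ (M + 1) * (x - y) ≤ x ^ (M + 1) * (x - y) :=
      mul_le_mul_of_nonneg_right h1 (by linarith)
    calc x * (x ^ (M + 1) - y ^ (M + 1)) + y ^ (M + 1) * (x - y)
        ≤ x * ((M + 1) * x ^ M * (x - y)) + x ^ (M + 1) * (x - y) := add_le_add h3 h4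
      _ = ((M + 1 : ℕ) + 1 : ℝ) * x ^ (M + 1) * (x - y) := by push_cast; ring

/-- summation step: `∑_{b ≤ m/w} (m - w b)^M ≥ m^(M+1) / ((M+1) w)` -/
lemma sum_pow_ge (M w m : ℕ) (hw : 1 ≤ w) :
    (m : ℝ) ^ (M + 1) / ((M + 1) * w) ≤ ∑ b ∈ range (m / w + 1), ((m - w * b : ℕ) : ℝ) ^ M := by
  have hw' : (0 : ℝ) < w := by exact_mod_cast hw
  set g : ℕ → ℝ := fun b => ((m - w * b : ℕ) : ℝ) ^ (M + 1) with hg
  have hstep : ∀ b, g b - g (b + 1) ≤ (M + 1) * w * ((m - w * b : ℕ) : ℝ) ^ M := by
    intro b
    have h0 : (m - w * (b + 1) : ℕ) ≤ m - w * b := by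
      apply Nat.sub_le_sub_left; apply Nat.mul_le_mul_left; omega
    have h1 := pow_sub_le (x := ((m - w * b : ℕ) : ℝ)) (y := ((m - w * (b + 1) : ℕ) : ℝ))
      (Nat.cast_nonneg _) (by exact_mod_cast h0) M
    have h2 : ((m - w * b : ℕ) : ℝ) - ((m - w * (b + 1) : ℕ) : ℝ) ≤ w := by
      have : m - w * b ≤ (m - w * (b + 1)) + w := by
        have : w * (b + 1) = w * b + w := by ring
        omega
      have : ((m - w * b : ℕ) : ℝ) ≤ ((m - w * (b + 1) : ℕ) : ℝ) + w := by exact_mod_cast this
      linarith
    calc g b - g (b + 1) ≤ (M + 1) * ((m - w * b : ℕ) : ℝ) ^ M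
          * (((m - w * b : ℕ) : ℝ) - ((m - w * (b + 1) : ℕ) : ℝ)) := h1
      _ ≤ (M + 1) * ((m - w * b : ℕ) : ℝ) ^ M * w := by
          apply mul_le_mul_of_nonneg_left h2; positivity
      _ = (M + 1) * w * ((m - w * b : ℕ) : ℝ) ^ M := by ring
  have htel : ∀ K : ℕ, g 0 - g K ≤ (M + 1) * w * ∑ b ∈ range K, ((m - w * b : ℕ) : ℝ) ^ M := by
    intro K
    induction K with
    | zero => simp
    | succ K ih =>
      rw [sum_range_succ, mul_add]
      have := hstep K
      linarith
  have hend : g (m / w + 1) = 0 := by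
    have : m - w * (m / w + 1) = 0 := by
      apply Nat.sub_eq_zero_of_le
      have := Nat.lt_mul_div_succ m (show 0 < w by omega)
      exact this.le
    simp [hg, this]
  have h := htel (m / w + 1)
  rw [hend, sub_zero] at h
  have h0 : g 0 = (m : ℝ) ^ (M + 1) := by simp [hg]
  rw [h0] at h
  rw [div_le_iff₀ (by positivity)]
  linarith

/-- number of multi-indices supported on `s` of weight at most `m` -/
theorem below_card (ω : ι → ℕ) (hω : ∀ i, 1 ≤ ω i) (s : Finset ι) :
    ∀ m : ℕ, (m : ℝ) ^ s.card / (s.card.factorial * ∏ i ∈ s, (ω i : ℝ)) ≤ ((below ω s m).card : ℝ) := by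
  classical
  induction s using Finset.induction_on with
  | empty =>
    intro m
    have : (fun _ => 0 : ι → ℕ) ∈ below ω ∅ m := by
      rw [mem_below ω hω]; simp
    have : 0 < (below ω ∅ m).card := Finset.card_pos.mpr ⟨_, this⟩
    simp only [card_empty, pow_zero, Nat.factorial_zero, Nat.cast_one, prod_empty, mul_one, div_one]
    exact_mod_cast this
  | insert j s hj ih =>
    intro m
    have hwj : (0 : ℝ) < ω j := by exact_mod_cast hω j
    -- injection from the sigma set
    have hcard : (∑ b ∈ range (m / ω j + 1), (below ω s (m - ω j * b)).card)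
        ≤ (below ω (insert j s) m).card := by
      rw [← Finset.card_sigma]
      apply Finset.card_le_card_of_injOn (fun x => Function.update x.2 j x.1)
      · rintro ⟨b, a⟩ h
        have h' := Finset.mem_sigma.mp (Finset.mem_coe.mp h)
        obtain ⟨hb, ha⟩ := h'
        simp only at hb ha
        rw [mem_below ω hω] at ha
        rw [Finset.mem_coe, mem_below ω hω]
        obtain ⟨h1, h2⟩ := ha
        have hb' : ω j * b ≤ m := by
          have : b ≤ m / ω j := by rw [mem_range] at hb; omega
          calc ω j * b ≤ ω j * (m / ω j) := Nat.mul_le_mul_left _ this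
            _ ≤ m := Nat.mul_div_le _ _
        constructor
        · intro i hi
          have hij : i ≠ j := fun h => hi (h ▸ mem_insert_self j s)
          show Function.update a j b i = 0
          rw [Function.update_of_ne hij]
          exact h1 i fun h => hi (mem_insert_of_mem h)
        · show ∑ i ∈ insert j s, ω i * Function.update a j b i ≤ m
          rw [Finset.sum_insert hj]
          have e1 : ∑ i ∈ s, ω i * Function.update a j b i = ∑ i ∈ s, ω i * a i := by
            apply Finset.sum_congr rfl
            intro i hi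
            have hij : i ≠ j := fun h => hj (h ▸ hi)
            rw [Function.update_of_ne hij]
          rw [e1]
          rw [Function.update_self]
          omega
      · rintro ⟨b, a⟩ h ⟨b', a'⟩ h' hab
        simp only at hab
        have ha := (Finset.mem_sigma.mp (Finset.mem_coe.mp h)).2
        have ha' := (Finset.mem_sigma.mp (Finset.mem_coe.mp h')).2
        simp only at ha ha'
        rw [mem_below ω hω] at ha ha'
        have hb : b = b' := by
          have := congrFun hab j
          simpa using this
        subst hb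
        have : a = a' := by
          funext i
          by_cases hij : i = j
          · subst hij
            rw [ha.1 i hj, ha'.1 i hj]
          · have := congrFun hab i
            simpa [Function.update_of_ne hij] using this
        subst this
        rfl
    have hsum : (∑ b ∈ range (m / ω j + 1),
        (((m - ω j * b : ℕ) : ℝ)) ^ s.card / (s.card.factorial * ∏ i ∈ s, (ω i : ℝ)))
        ≤ ((below ω (insert j s) m).card : ℝ) := by
      calc _ ≤ ∑ b ∈ range (m / ω j + 1), ((below ω s (m - ω j * b)).card : ℝ) :=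
            Finset.sum_le_sum fun b _ => ih _
        _ = ((∑ b ∈ range (m / ω j + 1), (below ω s (m - ω j * b)).card : ℕ) : ℝ) := by push_cast; rfl
        _ ≤ _ := by exact_mod_cast hcard
    rw [← Finset.sum_div] at hsum
    have hP : 0 < ∏ i ∈ s, (ω i : ℝ) := Finset.prod_pos fun i _ => by exact_mod_cast hω i
    have h3 := sum_pow_ge s.card (ω j) m (hω j)
    rw [Finset.card_insert_of_notMem hj, Finset.prod_insert hj, Nat.factorial_succ]
    refine le_trans ?_ hsum
    calc (m : ℝ) ^ (s.card + 1) / (((s.card + 1) * s.card.factorial : ℕ) * (ω j * ∏ i ∈ s, (ω i : ℝ)))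
        = (m : ℝ) ^ (s.card + 1) / ((s.card + 1) * ω j) / (s.card.factorial * ∏ i ∈ s, (ω i : ℝ)) := by
          push_cast
          rw [div_div]
          congr 1
          ring
      _ ≤ _ := by
          apply div_le_div_of_nonneg_right h3
          positivity

/-- number of multi-indices of weight exactly `m`, when the weight `1` occurs -/
theorem wt_card (ω : ι → ℕ) (hω : ∀ i, 1 ≤ ω i) (i0 : ι) (hi0 : ω i0 = 1) (m : ℕ) :
    (m : ℝ) ^ (Fintype.card ι - 1) / ((Fintype.card ι - 1).factorial * ∏ i, (ω i : ℝ))
      ≤ ((wt ω m).card : ℝ) := by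
  classical
  have h := below_card ω hω (univ.erase i0) m
  have hc : (univ.erase i0 : Finset ι).card = Fintype.card ι - 1 := by
    rw [Finset.card_erase_of_mem (mem_univ i0), Finset.card_univ]
  have hp : ∏ i, (ω i : ℝ) = ∏ i ∈ univ.erase i0, (ω i : ℝ) := by
    rw [← Finset.mul_prod_erase univ (fun i => (ω i : ℝ)) (mem_univ i0)]
    simp [hi0]
  rw [hc, ← hp] at h
  refine h.trans ?_
  have : (below ω (univ.erase i0) m).card ≤ (wt ω m).card := by
    apply Finset.card_le_card_of_injOn
      (fun a => Function.update a i0 (m - ∑ i ∈ univ.erase i0, ω i * a i))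
    · intro a ha
      rw [Finset.mem_coe, mem_below ω hω] at ha
      rw [Finset.mem_coe, mem_wt ω hω]
      rw [← Finset.add_sum_erase univ _ (mem_univ i0)]
      have e1 : ∑ i ∈ univ.erase i0,
          ω i * Function.update a i0 (m - ∑ i ∈ univ.erase i0, ω i * a i) i
          = ∑ i ∈ univ.erase i0, ω i * a i := by
        apply Finset.sum_congr rfl
        intro i hi
        rw [Function.update_of_ne (mem_erase.mp hi).1]
      rw [e1]
      simp only [Function.update_self, hi0, one_mul]
      have := ha.2
      omega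
    · intro a ha b hb hab
      rw [Finset.mem_coe, mem_below ω hω] at ha hb
      funext i
      by_cases hi : i = i0
      · subst hi
        rw [ha.1 i (by simp), hb.1 i (by simp)]
      · have := congrFun hab i
        simpa [Function.update_of_ne hi] using this
  exact_mod_cast this

end H97KB
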