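import Mathlib

/-!
# From dimension `2n - 1` to dimension `n`
-/

set_option autoImplicit false

open Real

namespace H97KB

theorem numF (n : ℕ) (hn : 2 ≤ n) :
    ((2 * n - 1 : ℕ) : ℝ) ^ 2 * (1 + log (2 * n - 1 : ℕ)) ≤ 7 * ((n : ℝ) ^ 2 * (1 + log n)) := by
  have hn0 : (2 : ℝ) ≤ n := by exact_mod_cast hn
  have hl : 0 ≤ log (n : ℝ) := log_nonneg (by linarith)
  have hc : ((2 * n - 1 : ℕ) : ℝ) = 2 * n - 1 := by
    rw [Nat.cast_sub (by omega)]
    push_cast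
    ring
  rw [hc]
  have h1 : log (2 * (n : ℝ) - 1) ≤ log 2 + log n := by
    rw [← Real.log_mul (by norm_num) (by positivity)]
    exact Real.log_le_log (by linarith) (by linarith)
  have h2 : log 2 ≤ 7 / 10 := by
    have := Real.log_two_lt_d9
    linarith
  have h3 : 1 + log (2 * (n : ℝ) - 1) ≤ 7 / 4 * (1 + log n) := by linarith
  have h4 : (2 * (n : ℝ) - 1) ^ 2 ≤ 4 * n ^ 2 := by nlinarith
  calc (2 * (n : ℝ) - 1) ^ 2 * (1 + log (2 * (n : ℝ) - 1)) ≤ (2 * (n : ℝ) - 1) ^ 2 * (7 / 4 * (1 + log n)) :=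
        mul_le_mul_of_nonneg_left h3 (by positivity)
    _ ≤ (4 * n ^ 2) * (7 / 4 * (1 + log n)) := mul_le_mul_of_nonneg_right h4 (by positivity)
    _ = _ := by ring

end H97KB
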