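import Pool.Agent.H97.KB.Fin
import Pool.Agent.H97.KB.NumF
import Pool.Agent.H57.KB.Vol
import Pool.Agent.H78.KB.TailB

/-!
# General hypersurfaces of degree `C n² (1 + log n)`: assembly
-/

set_option autoImplicit false

open MeasureTheory Real

namespace H97KB

open Pool.Agent.H47.KB Pool.Agent.H57.KB

theorem hint {n k d : ℕ} (T : MorseFacts n k d) (a c R : ℝ) :
    Integrable (fun z => ∫ ζ in {ζ : Jet n k | nsq ζ ≤ R}, low a c (T.S z) ζ
      ∂(law n k Pool.Agent.H51.KB.gc)) T.μ := by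
  have h := (T.integrable_low (α := fun _ => a) (β := fun _ => c) continuous_const continuous_const R).integral_prod_left
  refine h.congr (Filter.Eventually.of_forall fun z => ?_)
  exact integral_indicator (MorseFacts.measurableSet_cut R)

/-- Green-Griffiths-Lang for general hypersurfaces of degree `C n² (1 + log n)`. -/
theorem gglA {n d : ℕ} (hn : 2 ≤ n) (T : MorseFacts n (4 * n) d) (y : ℚ) (hy : 0 < y) (hy1 : y ≤ 1)
    (ht : TailB n (4 * n) Pool.Agent.H51.KB.gc ((y : ℝ) * n) ((1 / 20) ^ n))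
    (hd : 19680 / (y : ℝ) * ((n : ℝ) ^ 2 * (1 + log n)) ≤ d) : GGL n d := by
  have hyr : (0 : ℝ) < y := by exact_mod_cast hy
  have hyr1 : (y : ℝ) ≤ 1 := by exact_mod_cast hy1
  have hD := numD n d hn y hyr hyr1 hd
  have hn0 : (2 : ℝ) ≤ n := by exact_mod_cast hn
  have hd1 : 1 ≤ d := by
    have : (1 : ℝ) ≤ d := by nlinarith
    exact_mod_cast this
  exact gglA_of hn T y hy hy1 ht hd (hint T) fun t ht0 R _ κ hκ h =>
    T.vol (by omega) (by omega) hd1 t ht0 R κ hκ h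

/-- The published facts used. -/
structure PublishedA where
  jets : ∀ n k d : ℕ, 2 ≤ n → 1 ≤ k → n + k ≤ d → MorseFacts n k d
  /-- Riedl-Yang (J. Algebraic Geom. 31, 2022): Green-Griffiths-Lang for general hypersurfaces of degree `d`
  and dimension `2n - 1` implies that general hypersurfaces of degree `d` and dimension `n` are hyperbolic. -/
  riedl_yang : ∀ n d : ℕ, 2 ≤ n → GGL (2 * n - 1) d → Hyp n d

/-- Green-Griffiths-Lang for general hypersurfaces of degree `C n² (1 + log n)`. -/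
theorem gglP (P : PublishedA) (y : ℚ) (hy : 0 < y) (hy1 : y ≤ 1)
    (ht : ∀ n : ℕ, 2 ≤ n → TailB n (4 * n) Pool.Agent.H51.KB.gc ((y : ℝ) * n) ((1 / 20) ^ n))
    {n d : ℕ} (hn : 2 ≤ n) (hd : 19680 / (y : ℝ) * ((n : ℝ) ^ 2 * (1 + log n)) ≤ d) : GGL n d := by
  have hyr : (0 : ℝ) < y := by exact_mod_cast hy
  have hyr1 : (y : ℝ) ≤ 1 := by exact_mod_cast hy1
  have hD := numD n d hn y hyr hyr1 hd
  have hn0 : (2 : ℝ) ≤ n := by exact_mod_cast hn
  have hkd : n + 4 * n ≤ d := by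
    have : (n : ℝ) + 4 * n ≤ d := by nlinarith
    exact_mod_cast this
  exact gglA hn (P.jets n (4 * n) d hn (by omega) hkd) y hy hy1 (ht n hn) hd

/-- Kobayashi hyperbolicity of general hypersurfaces of degree `C n² (1 + log n)`. -/
theorem hypP (P : PublishedA) (y : ℚ) (hy : 0 < y) (hy1 : y ≤ 1)
    (ht : ∀ n : ℕ, 2 ≤ n → TailB n (4 * n) Pool.Agent.H51.KB.gc ((y : ℝ) * n) ((1 / 20) ^ n))
    {n d : ℕ} (hn : 2 ≤ n) (hd : 7 * (19680 / (y : ℝ)) * ((n : ℝ) ^ 2 * (1 + log n)) ≤ d) : Hyp n d := by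
  have hyr : (0 : ℝ) < y := by exact_mod_cast hy
  refine P.riedl_yang n d hn (gglP P y hy hy1 ht (n := 2 * n - 1) (by omega) ?_)
  have h1 := numF n hn
  have h2 : (0 : ℝ) ≤ 19680 / y := by positivity
  calc 19680 / (y : ℝ) * (((2 * n - 1 : ℕ) : ℝ) ^ 2 * (1 + log (2 * n - 1 : ℕ)))
      ≤ 19680 / (y : ℝ) * (7 * ((n : ℝ) ^ 2 * (1 + log n))) := mul_le_mul_of_nonneg_left h1 h2
    _ = 7 * (19680 / (y : ℝ)) * ((n : ℝ) ^ 2 * (1 + log n)) := by ring
    _ ≤ d := hd

/-- Green-Griffiths-Lang for general hypersurfaces of degree `d ≥ 320000 n² (1 + log n)`. -/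
theorem ggl (P : PublishedA) {n d : ℕ} (hn : 2 ≤ n) (hd : 320000 * ((n : ℝ) ^ 2 * (1 + log n)) ≤ d) :
    GGL n d := by
  refine gglP P (1 / 16) (by norm_num) (by norm_num) (fun n _ => Pool.Agent.H78.KB.tailB16 n) hn ?_
  refine le_trans ?_ hd
  have hl : 0 ≤ log (n : ℝ) := log_nonneg (by exact_mod_cast (by omega : 1 ≤ n))
  push_cast
  apply mul_le_mul_of_nonneg_right _ (by positivity)
  norm_num

/-- Kobayashi hyperbolicity of general hypersurfaces of degree `d ≥ 2300000 n² (1 + log n)`. -/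
theorem hyp (P : PublishedA) {n d : ℕ} (hn : 2 ≤ n) (hd : 2300000 * ((n : ℝ) ^ 2 * (1 + log n)) ≤ d) :
    Hyp n d := by
  refine hypP P (1 / 16) (by norm_num) (by norm_num) (fun n _ => Pool.Agent.H78.KB.tailB16 n) hn ?_
  refine le_trans ?_ hd
  have hl : 0 ≤ log (n : ℝ) := log_nonneg (by exact_mod_cast (by omega : 1 ≤ n))
  push_cast
  apply mul_le_mul_of_nonneg_right _ (by positivity)
  norm_num

end H97KB
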