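import Pool.Agent.H97.KB.Esym
import Pool.Agent.H47.KB.Asym

/-!
# Numbers of THEOREM K' (module V4)
-/

set_option autoImplicit false

open Real

namespace H97KB

/-- `M! e^M ≤ e M · M^M`. -/
theorem factorial_exp_le (M : ℕ) (hM : 1 ≤ M) :
    (M.factorial : ℝ) * exp M ≤ exp 1 * M * (M : ℝ) ^ M := by
  induction M, hM using Nat.le_induction with
  | base => simp
  | succ M hM ih =>
    have hM0 : (0 : ℝ) < M := by exact_mod_cast hM
    have h1 : exp 1 * (M : ℝ) ^ (M + 1) ≤ ((M : ℝ) + 1) ^ (M + 1) := by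
      have h2 : exp 1 ≤ (((M : ℝ) + 1) / M) ^ (M + 1) := by
        have h3 : (1 : ℝ) / (M + 1) ≤ log (((M : ℝ) + 1) / M) := by
          have h4 := Real.log_le_sub_one_of_pos (show (0 : ℝ) < M / (M + 1) by positivity)
          have h5 : log ((M : ℝ) / (M + 1)) = - log (((M : ℝ) + 1) / M) := by
            rw [← Real.log_inv, inv_div]
          rw [h5] at h4
          have h6 : (M : ℝ) / (M + 1) - 1 = - (1 / (M + 1)) := by
            field_simp
            ring
          rw [h6] at h4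
          linarith
        have h7 : (1 : ℝ) ≤ log ((((M : ℝ) + 1) / M) ^ (M + 1)) := by
          rw [Real.log_pow]
          push_cast
          rw [div_le_iff₀ (by positivity)] at h3
          linarith
        rw [← Real.le_log_iff_exp_le (by positivity)]
        exact h7
      rw [div_pow, le_div_iff₀ (by positivity)] at h2
      exact h2
    rw [Nat.factorial_succ]
    push_cast
    rw [Real.exp_add]
    calc ((M : ℝ) + 1) * (M.factorial : ℝ) * (exp M * exp 1)
        = ((M : ℝ) + 1) * exp 1 * ((M.factorial : ℝ) * exp M) := by ring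
      _ ≤ ((M : ℝ) + 1) * exp 1 * (exp 1 * M * (M : ℝ) ^ M) := by
          apply mul_le_mul_of_nonneg_left ih (by positivity)
      _ = exp 1 * ((M : ℝ) + 1) * (exp 1 * (M : ℝ) ^ (M + 1)) := by ring
      _ ≤ exp 1 * ((M : ℝ) + 1) * ((M : ℝ) + 1) ^ (M + 1) := by
          apply mul_le_mul_of_nonneg_left h1 (by positivity)

/-- The value of `q` (degree per weight). -/
noncomputable def qA (n : ℕ) : ℝ := 6 * (1 + log n) / n

theorem qA_nonneg (n : ℕ) (hn : 1 ≤ n) : 0 ≤ qA n := by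
  have h : 0 ≤ log (n : ℝ) := log_nonneg (by exact_mod_cast hn)
  unfold qA
  positivity

theorem numA_exp (n : ℕ) (hn : 2 ≤ n) :
    n * log 120 + 5 / 2 * n * log n + 1 + (log 4 + 2 * log n) < qA n * ((4 * n * n - 1 : ℕ) : ℝ) / 2 := by
  have hn0 : (2 : ℝ) ≤ n := by exact_mod_cast hn
  have hl : 0 ≤ log (n : ℝ) := log_nonneg (by linarith)
  have hM : ((4 * n * n - 1 : ℕ) : ℝ) = 4 * n * n - 1 := by
    rw [Nat.cast_sub (by nlinarith)]
    push_cast
    ring
  rw [hM]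
  have h120 : log 120 ≤ 5 := by
    rw [Real.log_le_iff_le_exp (by norm_num)]
    have h := Real.exp_one_gt_d9
    have : exp 5 = exp 1 ^ 5 := by
      rw [← Real.exp_nat_mul]
      norm_num
    rw [this]
    calc (120 : ℝ) ≤ 2.7 ^ 5 := by norm_num
      _ ≤ exp 1 ^ 5 := by
          apply pow_le_pow_left₀ (by norm_num)
          linarith
  have h4 : log 4 ≤ 2 := by
    rw [Real.log_le_iff_le_exp (by norm_num)]
    have h := Real.exp_one_gt_d9
    have : exp 2 = exp 1 ^ 2 := by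
      rw [← Real.exp_nat_mul]
      norm_num
    rw [this]
    calc (4 : ℝ) ≤ 2.7 ^ 2 := by norm_num
      _ ≤ exp 1 ^ 2 := by
          apply pow_le_pow_left₀ (by norm_num)
          linarith
  have h5 : 9 * n * (1 + log n) ≤ qA n * (4 * n * n - 1) / 2 := by
    unfold qA
    have : 6 * (1 + log n) / n * (4 * n * n - 1) / 2 = (1 + log n) * (12 * n - 3 / n) := by
      field_simp
      ring
    rw [this]
    have h6 : (3 : ℝ) / n ≤ 3 / 2 := by
      apply div_le_div_of_nonneg_left (by norm_num) (by norm_num) hn0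
    have h7 : 9 * (n : ℝ) ≤ 12 * n - 3 / n := by linarith
    calc 9 * n * (1 + log n) = (1 + log n) * (9 * n) := by ring
      _ ≤ _ := mul_le_mul_of_nonneg_left h7 (by linarith)
  refine lt_of_lt_of_le ?_ h5
  have h8 : n * log 120 ≤ n * 5 := mul_le_mul_of_nonneg_left h120 (by linarith)
  nlinarith

/-- Main numerical inequality. -/
theorem numA (n : ℕ) (hn : 2 ≤ n) :
    exp ((4 * n * n - 1 : ℕ) - qA n * (4 * n * n - 1 : ℕ) / 2) * (2 * sqrt (4 * n : ℕ)) ^ n *
      ((n + 4 * n * n - 1).factorial : ℝ) * 6 ^ n < ((4 * n * n - 1 : ℕ) : ℝ) ^ (4 * n * n - 1) := by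
  have hn0 : (2 : ℝ) ≤ n := by exact_mod_cast hn
  have hnpos : (0 : ℝ) < n := by linarith
  set M : ℕ := 4 * n * n - 1 with hMdef
  have hM1 : 1 ≤ M := by
    have : 16 ≤ 4 * n * n := by nlinarith
    omega
  have hN : n + 4 * n * n - 1 = M + n := by
    have : 16 ≤ 4 * n * n := by nlinarith
    omega
  have hM0 : (0 : ℝ) < M := by exact_mod_cast hM1
  rw [hN]
  have hMle : (M : ℝ) ≤ 4 * n ^ 2 := by
    have : M ≤ 4 * n * n := Nat.sub_le _ _
    have h2 : (M : ℝ) ≤ ((4 * n * n : ℕ) : ℝ) := by exact_mod_cast this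
    push_cast at h2
    nlinarith
  have hf : ((M + n).factorial : ℝ) ≤ (M.factorial : ℝ) * (5 * n ^ 2) ^ n := by
    have h1 : (M + n).factorial ≤ M.factorial * (M + n) ^ n := by
      rw [← Nat.factorial_mul_ascFactorial]
      exact Nat.mul_le_mul_left _ (Nat.ascFactorial_le_pow_add M n)
    have h2 : ((M + n).factorial : ℝ) ≤ (M.factorial : ℝ) * ((M : ℝ) + n) ^ n := by exact_mod_cast h1
    refine h2.trans ?_
    have h3 : (M : ℝ) + n ≤ 5 * n ^ 2 := by nlinarith
    gcongr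
  have hs : (2 * sqrt (4 * n : ℕ)) = 4 * sqrt n := by
    push_cast
    rw [Real.sqrt_mul (by norm_num)]
    have : sqrt 4 = 2 := by
      rw [show (4 : ℝ) = 2 ^ 2 by norm_num]
      exact Real.sqrt_sq (by norm_num)
    rw [this]
    ring
  rw [hs, Real.exp_sub]
  have hE := numA_exp n hn
  rw [← hMdef] at hE
  have hexp : (120 : ℝ) ^ n * (sqrt n ^ 5) ^ n * exp 1 * (4 * n ^ 2) < exp (qA n * M / 2) := by
    rw [← Real.log_lt_iff_lt_exp (by positivity)]
    rw [Real.log_mul (by positivity) (by positivity), Real.log_mul (by positivity) (by positivity),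
      Real.log_mul (by positivity) (by positivity), Real.log_mul (by norm_num) (by positivity),
      Real.log_pow, Real.log_pow, Real.log_pow, Real.log_pow, Real.log_exp, Real.log_sqrt (by positivity)]
    push_cast
    refine lt_of_eq_of_lt ?_ hE
    ring
  have hfe := factorial_exp_le M hM1
  have h5 : sqrt n ^ 4 = (n : ℝ) ^ 2 := by
    have : sqrt (n : ℝ) ^ 2 = n := Real.sq_sqrt (by positivity)
    calc sqrt n ^ 4 = (sqrt (n : ℝ) ^ 2) ^ 2 := by ring
      _ = _ := by rw [this]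
  have h6 : (4 * sqrt n) ^ n * ((5 * (n : ℝ) ^ 2) ^ n * 6 ^ n) = 120 ^ n * (sqrt n ^ 5) ^ n := by
    rw [← mul_pow, ← mul_pow, ← mul_pow]
    congr 1
    rw [← h5]
    ring
  have hq : 0 < exp (qA n * M / 2) := Real.exp_pos _
  calc exp M / exp (qA n * M / 2) * (4 * sqrt n) ^ n * ((M + n).factorial : ℝ) * 6 ^ n
      ≤ exp M / exp (qA n * M / 2) * (4 * sqrt n) ^ n * ((M.factorial : ℝ) * (5 * n ^ 2) ^ n) * 6 ^ n := by
        gcongr
    _ = ((M.factorial : ℝ) * exp M) * ((4 * sqrt n) ^ n * ((5 * (n : ℝ) ^ 2) ^ n * 6 ^ n)) / exp (qA n * M / 2) := by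
        ring
    _ ≤ (exp 1 * M * (M : ℝ) ^ M) * ((4 * sqrt n) ^ n * ((5 * (n : ℝ) ^ 2) ^ n * 6 ^ n)) / exp (qA n * M / 2) := by
        gcongr
    _ = (M : ℝ) ^ M * ((120 ^ n * (sqrt n ^ 5) ^ n * exp 1 * M) / exp (qA n * M / 2)) := by
        rw [h6]
        ring
    _ < (M : ℝ) ^ M * 1 := by
        apply mul_lt_mul_of_pos_left _ (by positivity)
        rw [div_lt_one hq]
        refine lt_of_le_of_lt ?_ hexp
        gcongr
    _ = _ := mul_one _

open Pool.Agent.H47.KB in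
/-- The number of sections beats the number of monomials of high degree. -/
theorem numB (n d : ℕ) (hn : 2 ≤ n) (hd : 6 ≤ d) :
    cnt n (4 * n) (qA n) * ((d : ℝ) ^ (n + 1) / n.factorial) <
      (1 / 2) * ((1 / 5) ^ n * (d * ((d : ℝ) - 1) ^ n * (n.factorial * es (wv (4 * n)) n))) /
        (n.factorial * ((4 * n).factorial : ℝ) ^ n * (n + 4 * n * n - 1).factorial) := by
  have hd0 : (6 : ℝ) ≤ d := by exact_mod_cast hd
  have h1 := numA n hn
  have h2 := one_le_es n
  set M : ℕ := 4 * n * n - 1 with hMdef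
  have hM1 : 1 ≤ M := by
    have : 16 ≤ 4 * n * n := by nlinarith
    omega
  have hM0 : (0 : ℝ) < (M : ℝ) ^ M := by
    have : (0 : ℝ) < M := by exact_mod_cast hM1
    positivity
  set N : ℕ := n + 4 * n * n - 1 with hNdef
  set A : ℝ := exp (M - qA n * M / 2) * (2 * sqrt (4 * n : ℕ)) ^ n with hA
  have hA0 : 0 < A := by
    have : 0 < sqrt ((4 * n : ℕ) : ℝ) := by
      apply Real.sqrt_pos.2
      have : 0 < 4 * n := by omega
      exact_mod_cast this
    positivity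
  have hF : (0 : ℝ) < (N.factorial : ℝ) := by positivity
  have h3 : A * (N.factorial : ℝ) * 6 ^ n / (M : ℝ) ^ M < 1 := by
    rw [div_lt_one hM0]
    exact h1
  have hdd : ((d : ℝ) / 6) ^ n ≤ (((d : ℝ) - 1) / 5) ^ n := by
    apply pow_le_pow_left₀ (by positivity)
    linarith
  have hd1 : (0 : ℝ) < (d : ℝ) - 1 := by linarith
  have hdpos : (0 : ℝ) < d := by linarith
  have hk0 : (0 : ℝ) < ((4 * n).factorial : ℝ) ^ n := by positivity
  have hn0 : (0 : ℝ) < (n.factorial : ℝ) := by positivity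
  unfold cnt
  rw [← hMdef]
  calc exp (M - qA n * M / 2) / (M : ℝ) ^ M * ((2 * sqrt (4 * n : ℕ)) ^ n / (2 * ((4 * n).factorial : ℝ) ^ n)) *
        ((d : ℝ) ^ (n + 1) / n.factorial)
      = (A * (N.factorial : ℝ) * 6 ^ n / (M : ℝ) ^ M) * ((1 / 2) * (d * ((d : ℝ) / 6) ^ n) /
        (n.factorial * ((4 * n).factorial : ℝ) ^ n * N.factorial)) := by
        rw [hA, pow_succ, div_pow]
        field_simp
    _ < 1 * ((1 / 2) * (d * ((d : ℝ) / 6) ^ n) /
        (n.factorial * ((4 * n).factorial : ℝ) ^ n * N.factorial)) := by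
        apply mul_lt_mul_of_pos_right h3 (by positivity)
    _ = (1 / 2) * (d * ((d : ℝ) / 6) ^ n) /
        (n.factorial * ((4 * n).factorial : ℝ) ^ n * N.factorial) := one_mul _
    _ ≤ (1 / 2) * ((1 / 5) ^ n * (d * ((d : ℝ) - 1) ^ n * (n.factorial * es (wv (4 * n)) n))) /
        (n.factorial * ((4 * n).factorial : ℝ) ^ n * N.factorial) := by
        apply div_le_div_of_nonneg_right _ (by positivity)
        apply mul_le_mul_of_nonneg_left _ (by norm_num)
        calc (d : ℝ) * ((d : ℝ) / 6) ^ n ≤ d * (((d : ℝ) - 1) / 5) ^ n :=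
              mul_le_mul_of_nonneg_left hdd (by positivity)
          _ = (1 / 5) ^ n * (d * ((d : ℝ) - 1) ^ n) * 1 := by
              rw [div_pow, div_pow, one_pow]
              ring
          _ ≤ (1 / 5) ^ n * (d * ((d : ℝ) - 1) ^ n) * (n.factorial * es (wv (4 * n)) n) :=
              mul_le_mul_of_nonneg_left h2 (by positivity)
          _ = _ := by ring

/-- Positivity: the twist is larger than the cost of the slanted vector fields. -/
theorem numC (n d : ℕ) (hn : 2 ≤ n) (y : ℝ) (hy : 0 < y) (hy1 : y ≤ 1)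
    (hd : 19680 / y * ((n : ℝ) ^ 2 * (1 + log n)) ≤ d) :
    qA n * (5 * (4 * n : ℕ) - 1) < y * ((d : ℝ) - 1) / (160 * n ^ 2) - 2 := by
  have hn0 : (2 : ℝ) ≤ n := by exact_mod_cast hn
  have hnpos : (0 : ℝ) < n := by linarith
  have hl : 0 ≤ log (n : ℝ) := log_nonneg (by linarith)
  have h1 : qA n * (5 * (4 * n : ℕ) - 1) ≤ 120 * (1 + log n) := by
    unfold qA
    push_cast
    rw [div_mul_eq_mul_div, div_le_iff₀ hnpos]
    nlinarith
  have h2 : 123 * (1 + log n) ≤ y * (d : ℝ) / (160 * n ^ 2) := by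
    rw [le_div_iff₀ (by positivity)]
    have h3 : y * (19680 / y * ((n : ℝ) ^ 2 * (1 + log n))) ≤ y * d := mul_le_mul_of_nonneg_left hd hy.le
    have h4 : y * (19680 / y * ((n : ℝ) ^ 2 * (1 + log n))) = 19680 * ((n : ℝ) ^ 2 * (1 + log n)) := by
      field_simp
    rw [h4] at h3
    nlinarith
  have h5 : y / (160 * (n : ℝ) ^ 2) < 1 := by
    rw [div_lt_one (by positivity)]
    nlinarith
  have h6 : y * ((d : ℝ) - 1) / (160 * n ^ 2) = y * (d : ℝ) / (160 * n ^ 2) - y / (160 * (n : ℝ) ^ 2) := by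
    ring
  rw [h6]
  nlinarith

/-- The degree is large. -/
theorem numD (n d : ℕ) (hn : 2 ≤ n) (y : ℝ) (hy : 0 < y) (hy1 : y ≤ 1)
    (hd : 19680 / y * ((n : ℝ) ^ 2 * (1 + log n)) ≤ d) : 30 * (n : ℝ) ^ 2 ≤ (d : ℝ) - 1 := by
  have hn0 : (2 : ℝ) ≤ n := by exact_mod_cast hn
  have hl : 0 ≤ log (n : ℝ) := log_nonneg (by linarith)
  have h1 : (19680 : ℝ) ≤ 19680 / y := by
    rw [le_div_iff₀ hy]
    nlinarith
  have h2 : 19680 * ((n : ℝ) ^ 2 * 1) ≤ 19680 / y * ((n : ℝ) ^ 2 * (1 + log n)) := by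
    apply mul_le_mul h1 _ (by positivity) (by positivity)
    apply mul_le_mul_of_nonneg_left _ (by positivity)
    linarith
  nlinarith

/-- The final comparison of the main term and the error term. -/
theorem numE (n : ℕ) (hn : 2 ≤ n) (p : ℝ) (hp : p ≤ (1 / 20) ^ n) :
    (1 / 5 : ℝ) ^ n ≤ (1 / 2) ^ n * (3 / 4 - p) - p * 2 ^ n := by
  have h1 : p * ((1 / 2 : ℝ) ^ n + 2 ^ n) ≤ (1 / 20) ^ n * ((1 / 2 : ℝ) ^ n + 2 ^ n) :=
    mul_le_mul_of_nonneg_right hp (by positivity)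
  have h2 : (1 / 20 : ℝ) ^ n * ((1 / 2 : ℝ) ^ n + 2 ^ n) = (1 / 40) ^ n + (1 / 10) ^ n := by
    rw [mul_add, ← mul_pow, ← mul_pow]
    norm_num
  rw [h2] at h1
  have h3 : (1 / 5 : ℝ) ^ n = (1 / 2) ^ n * (2 / 5) ^ n := by
    rw [← mul_pow]
    norm_num
  have h4 : (1 / 40 : ℝ) ^ n = (1 / 2) ^ n * (1 / 20) ^ n := by
    rw [← mul_pow]
    norm_num
  have h5 : (1 / 10 : ℝ) ^ n = (1 / 2) ^ n * (1 / 5) ^ n := by
    rw [← mul_pow]
    norm_num
  have a1 : (2 / 5 : ℝ) ^ n ≤ (2 / 5) ^ 2 := pow_le_pow_of_le_one (by norm_num) (by norm_num) hn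
  have a2 : (1 / 20 : ℝ) ^ n ≤ (1 / 20) ^ 2 := pow_le_pow_of_le_one (by norm_num) (by norm_num) hn
  have a3 : (1 / 5 : ℝ) ^ n ≤ (1 / 5) ^ 2 := pow_le_pow_of_le_one (by norm_num) (by norm_num) hn
  have h6 : (1 / 2 : ℝ) ^ n * ((2 / 5) ^ n + (1 / 20) ^ n + (1 / 5) ^ n) ≤ (1 / 2) ^ n * (3 / 4) := by
    apply mul_le_mul_of_nonneg_left _ (by positivity)
    have : (2 / 5 : ℝ) ^ 2 + (1 / 20) ^ 2 + (1 / 5) ^ 2 ≤ 3 / 4 := by norm_num
    linarith
  have h7 : (1 / 2 : ℝ) ^ n * ((2 / 5) ^ n + (1 / 20) ^ n + (1 / 5) ^ n) =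
      (1 / 5) ^ n + (1 / 40) ^ n + (1 / 10) ^ n := by
    rw [h4, h5, h3]
    ring
  nlinarith

end H97KB
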