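import Pool.Agent.H97.KB.Point
import Pool.Agent.H97.KB.NumA

/-!
# The integral over the hypersurface (module V4 of THEOREM K')
-/

set_option autoImplicit false

namespace H97KB

open MeasureTheory Finset Matrix
open scoped ComplexOrder
open Pool.H64.KB Pool.Agent.H57.KB

variable {n : ℕ} {γ : Measure ℂ} [IsProbabilityMeasure γ]

/-- Lower bound of Demailly's integral. -/
theorem total (h : StdC γ) (hn : 2 ≤ n) {Y : Type*} [MeasurableSpace Y] {ν : Measure Y}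
    {S : Y → Matrix (Fin n) (Fin n) ℂ} {δ D : ℝ} (hδ : 0 < δ) (hD : 30 * (n : ℝ) ^ 2 ≤ D)
    (hch : ∀ x y : ℝ, ∫ z, ((x : ℂ) • (1 : Matrix (Fin n) (Fin n) ℂ) +
      (y : ℂ) • ((S z)ᴴ * S z)).det.re ∂ν = δ * (x + y * D) ^ n)
    {a p : ℝ} (ha : 0 ≤ a) (ha1 : a ≤ 2 / 15) (hp : p ≤ (1 / 20) ^ n)
    (ht : TailB n (4 * n) γ (2 * a * (4 * n : ℕ)) p)
    (hint : Integrable (fun z => ∫ ζ in {ζ : Jet n (4 * n) | nsq ζ ≤ 4 * (n * (4 * n + 1))},
      low a (2 * (4 * (n * (4 * n + 1)))) (S z) ζ ∂(law n (4 * n) γ)) ν) :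
    (1 / 5) ^ n * (δ * D ^ n * (n.factorial * es (wv (4 * n)) n)) ≤
      ∫ z, ∫ ζ in {ζ : Jet n (4 * n) | nsq ζ ≤ 4 * (n * (4 * n + 1))},
        low a (2 * (4 * (n * (4 * n + 1)))) (S z) ζ ∂(law n (4 * n) γ) ∂ν := by
  have hn0 : (2 : ℝ) ≤ n := by exact_mod_cast hn
  have hnpos : (0 : ℝ) < n := by linarith
  have hDpos : 0 < D := lt_of_lt_of_le (by positivity) hD
  set R : ℝ := 4 * (n * (4 * n + 1)) with hRdef
  have hR : 0 < R := by positivity
  have hRle : R ≤ 18 * n ^ 2 := by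
    rw [hRdef]
    nlinarith
  set E : ℝ := n.factorial * es (wv (4 * n)) n with hE
  have hE1 : 1 ≤ E := one_le_es n
  have he : 0 < es (wv (4 * n)) n := by
    by_contra hcon
    rw [not_lt] at hcon
    have : E ≤ 0 := mul_nonpos_of_nonneg_of_nonpos (by positivity) hcon
    linarith
  have hp0 : 0 ≤ p := le_trans measureReal_nonneg (ht ∅ (by simp))
  set b2 : ℝ := a + 4 / 3 with hb2
  -- the two integrals
  have i1 : ∫ z, ‖(S z).det‖ ^ 2 ∂ν = δ * D ^ n := by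
    have h1 := hch 0 1
    simp only [Complex.ofReal_zero, zero_smul, zero_add, Complex.ofReal_one, one_smul, one_mul] at h1
    simp_rw [det_conj_mul_re] at h1
    exact h1
  have i2 := hch (2 * R) b2
  have j1 : Integrable (fun z => ‖(S z).det‖ ^ 2) ν := by
    by_contra hcon
    rw [integral_undef hcon] at i1
    have : 0 < δ * D ^ n := by positivity
    linarith
  have j2 : Integrable (fun z => (((2 * R : ℝ) : ℂ) • (1 : Matrix (Fin n) (Fin n) ℂ) +
      (b2 : ℂ) • ((S z)ᴴ * S z)).det.re) ν := by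
    by_contra hcon
    rw [integral_undef hcon] at i2
    have : 0 < δ * (2 * R + b2 * D) ^ n := by positivity
    linarith
  have hpt : ∀ z, (1 / 2) ^ n * ((3 / 4 - p) * E) * ‖(S z).det‖ ^ 2 -
      p * (E * (3 / 4) ^ n) * (((2 * R : ℝ) : ℂ) • (1 : Matrix (Fin n) (Fin n) ℂ) +
        (b2 : ℂ) • ((S z)ᴴ * S z)).det.re ≤
      ∫ ζ in {ζ : Jet n (4 * n) | nsq ζ ≤ R}, low a (2 * R) (S z) ζ ∂(law n (4 * n) γ) := by
    intro z
    have h1 := point (n := n) (k := 4 * n) h (by omega) (by omega) he ha (show (0 : ℝ) ≤ 2 * R by positivity)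
      hR (by rw [hRdef]; push_cast; exact le_refl _) ht (S z)
    have h2 := errSum_le h ha (show (0 : ℝ) ≤ 2 * R by positivity) (S z)
    have h3 := mul_le_mul_of_nonneg_left h2 hp0
    refine le_trans ?_ h1
    have e1 : (1 / 2) ^ n * ((3 / 4 - p) * E) * ‖(S z).det‖ ^ 2 =
      (1 / 2) ^ n * (‖(S z).det‖ ^ 2 * ((3 / 4 - p) * (n.factorial * es (wv (4 * n)) n))) := by
      rw [hE]
      ring
    rw [e1]
    have e2 : p * (E * (3 / 4) ^ n) * (((2 * R : ℝ) : ℂ) • (1 : Matrix (Fin n) (Fin n) ℂ) +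
        (b2 : ℂ) • ((S z)ᴴ * S z)).det.re = p * (n.factorial * es (wv (4 * n)) n * ((3 / 4) ^ n *
        (((2 * R : ℝ) : ℂ) • (1 : Matrix (Fin n) (Fin n) ℂ) +
          (b2 : ℂ) • ((S z)ᴴ * S z)).det.re)) := by
      rw [hE]
      ring
    rw [e2]
    linarith
  have hmono := integral_mono (((j1.const_mul ((1 / 2) ^ n * ((3 / 4 - p) * E)))).sub
    (j2.const_mul (p * (E * (3 / 4) ^ n)))) hint hpt
  refine le_trans ?_ hmono
  simp only [Pi.sub_apply]
  rw [integral_sub (j1.const_mul _) (j2.const_mul _), integral_const_mul, integral_const_mul, i1, i2]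
  have h4 : (3 / 4 : ℝ) ^ n * (2 * R + b2 * D) ^ n ≤ 2 ^ n * D ^ n := by
    rw [← mul_pow, ← mul_pow]
    apply pow_le_pow_left₀ (by positivity)
    rw [hb2]
    nlinarith
  have h5 := numE n hn p hp
  have hpE : 0 ≤ p * (E * δ) := by positivity
  have h6 := mul_le_mul_of_nonneg_left h4 hpE
  have h7 : 0 ≤ δ * D ^ n * E := by positivity
  have h8 := mul_le_mul_of_nonneg_right h5 h7
  calc (1 / 5) ^ n * (δ * D ^ n * E) ≤ ((1 / 2) ^ n * (3 / 4 - p) - p * 2 ^ n) * (δ * D ^ n * E) := h8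
    _ = (1 / 2) ^ n * ((3 / 4 - p) * E) * (δ * D ^ n) - p * (E * δ) * (2 ^ n * D ^ n) := by ring
    _ ≤ (1 / 2) ^ n * ((3 / 4 - p) * E) * (δ * D ^ n) -
        p * (E * δ) * ((3 / 4) ^ n * (2 * R + b2 * D) ^ n) := by linarith
    _ = _ := by ring

end H97KB
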